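import Mathlib

set_option autoImplicit false

open MeasureTheory Set Metric TopologicalSpace Filter
open scoped ENNReal NNReal Topology

namespace Pool.Agent.MP_65ee2d_an

/-- The `s`-dimensional Hausdorff content. -/
noncomputable def cnt (X : Type*) [MetricSpace X] (s : ℝ) : OuterMeasure X :=
  OuterMeasure.ofFunction (fun A => ⨆ _ : A.Nonempty, ediam A ^ s) (by simp)

variable {X : Type*} [MetricSpace X]

lemma cnt_apply (s : ℝ) (E : Set X) :
    cnt X s E = ⨅ (t : ℕ → Set X) (_ : E ⊆ ⋃ n, t n), ∑' n, ⨆ _ : (t n).Nonempty,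
      ediam (t n) ^ s := by
  rw [cnt, OuterMeasure.ofFunction_apply]

lemma cnt_le_ediam (s : ℝ) (E : Set X) : cnt X s E ≤ ediam E ^ s :=
  (OuterMeasure.ofFunction_le E).trans (iSup_le fun _ => le_rfl)

lemma cnt_closedBall_le {s : ℝ} (hs : 0 ≤ s) (x : X) {r : ℝ} (hr : 0 ≤ r) :
    cnt X s (closedBall x r) ≤ ENNReal.ofReal ((2 * r) ^ s) := by
  refine (cnt_le_ediam s _).trans ?_
  rw [← ENNReal.ofReal_rpow_of_nonneg (by positivity) hs]
  refine ENNReal.rpow_le_rpow ?_ hs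
  refine ediam_le fun y hy z hz => ?_
  rw [edist_dist]
  refine ENNReal.ofReal_le_ofReal ?_
  rw [mem_closedBall] at hy hz
  linarith [dist_triangle_right y z x]

/-- Extraction of a cover by open balls, centred in the set. -/
lemma exists_ball_cover {s : ℝ} (hs : 0 < s) {E : Set X} (hE : E.Nonempty) {C : ℝ≥0∞}
    (h : cnt X s E < C) :
    ∃ (x : ℕ → X) (r : ℕ → ℝ), (∀ i, x i ∈ E) ∧ (∀ i, 0 < r i) ∧ E ⊆ ⋃ i, ball (x i) (r i) ∧
      ∑' i, ENNReal.ofReal (r i ^ s) < C := by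
  classical
  rw [cnt_apply] at h
  simp only [iInf_lt_iff] at h
  obtain ⟨t, hEt, ht⟩ := h
  set a : ℕ → ℝ≥0∞ := fun n => ⨆ _ : (t n).Nonempty, ediam (t n) ^ s with ha
  have hgap : C - ∑' n, a n ≠ 0 := (tsub_pos_of_lt ht).ne'
  obtain ⟨e, he0, hesum⟩ := ENNReal.exists_pos_sum_of_countable hgap ℕ
  have hsum : ∑' n, (a n + e n) < C := by
    rw [ENNReal.tsum_add]
    exact lt_tsub_iff_left.1 hesum
  have hfin : ∀ n, a n + e n ≠ ∞ := fun n =>
    ((ENNReal.le_tsum n).trans_lt (hsum.trans_le le_top)).ne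
  obtain ⟨x₀, hx₀⟩ := hE
  have hc : ∀ n, ∃ y : X, y ∈ E ∧ ((t n ∩ E).Nonempty → y ∈ t n) := by
    intro n
    by_cases hn : (t n ∩ E).Nonempty
    · obtain ⟨y, hy1, hy2⟩ := hn
      exact ⟨y, hy2, fun _ => hy1⟩
    · exact ⟨x₀, hx₀, fun h => absurd h hn⟩
  choose y hyE hyt using hc
  have hpos : ∀ n, 0 < ((a n + e n) ^ (1 / s)).toReal := by
    intro n
    refine ENNReal.toReal_pos ?_ ?_
    · refine (ENNReal.rpow_pos ?_ (hfin n)).ne'
      exact lt_of_lt_of_le (by exact_mod_cast he0 n) le_add_self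
    · exact ENNReal.rpow_ne_top_of_nonneg (by positivity) (hfin n)
  refine ⟨y, fun n => ((a n + e n) ^ (1 / s)).toReal, hyE, hpos, ?_, ?_⟩
  · intro z hz
    obtain ⟨n, hn⟩ := mem_iUnion.1 (hEt hz)
    refine mem_iUnion.2 ⟨n, ?_⟩
    have hyn : y n ∈ t n := hyt n ⟨z, hn, hz⟩
    have hne : (t n).Nonempty := ⟨z, hn⟩
    have h1 : edist z (y n) ≤ ediam (t n) := edist_le_ediam_of_mem hn hyn
    have h2 : a n = ediam (t n) ^ s := by simp [ha, hne]
    have h3 : ediam (t n) < (a n + e n) ^ (1 / s) := by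
      rw [← ENNReal.rpow_lt_rpow_iff hs, ← ENNReal.rpow_mul, one_div, inv_mul_cancel₀ hs.ne',
        ENNReal.rpow_one, h2]
      refine ENNReal.lt_add_right ?_ (by exact_mod_cast (he0 n).ne')
      rw [← h2]
      exact fun hh => hfin n (by rw [hh]; simp)
    have h4 : edist z (y n) < (a n + e n) ^ (1 / s) := h1.trans_lt h3
    rw [mem_ball, dist_edist]
    exact (ENNReal.toReal_lt_toReal (edist_ne_top _ _)
      (ENNReal.rpow_ne_top_of_nonneg (by positivity) (hfin n))).2 h4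
  · refine lt_of_eq_of_lt (tsum_congr fun n => ?_) hsum
    rw [← ENNReal.ofReal_rpow_of_nonneg ENNReal.toReal_nonneg hs.le, ENNReal.ofReal_toReal
      (ENNReal.rpow_ne_top_of_nonneg (by positivity) (hfin n)), ← ENNReal.rpow_mul, one_div,
      inv_mul_cancel₀ hs.ne', ENNReal.rpow_one]

lemma cnt_le_hausdorff [MeasurableSpace X] [BorelSpace X] (s : ℝ) (E : Set X) :
    cnt X s E ≤ Measure.hausdorffMeasure s E := by
  rw [Measure.hausdorffMeasure_apply, cnt_apply]
  refine le_iSup₂_of_le ∞ (by simp) ?_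
  simp

lemma hausdorff_eq_zero [MeasurableSpace X] [BorelSpace X] {s : ℝ} (hs : 0 < s) {E : Set X}
    (h : cnt X s E = 0) : Measure.hausdorffMeasure s E = 0 := by
  rw [Measure.hausdorffMeasure_apply]
  refine le_antisymm (iSup₂_le fun r hr => ?_) zero_le
  refine le_of_forall_gt fun c hc => ?_
  have hc' : cnt X s E < min c (r ^ s) := by
    rw [h]
    refine lt_min hc ?_
    rcases eq_or_ne r ∞ with rfl | hr'
    · rw [ENNReal.top_rpow_of_pos hs]; exact ENNReal.zero_lt_top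
    · exact ENNReal.rpow_pos hr hr'
  rw [cnt_apply] at hc'
  simp only [iInf_lt_iff] at hc'
  obtain ⟨t, ht, ht2⟩ := hc'
  refine lt_of_le_of_lt (iInf_le_of_le t (iInf_le_of_le ht (iInf_le_of_le (fun n => ?_) le_rfl)))
    (ht2.trans_le (min_le_left _ _))
  by_cases hne : (t n).Nonempty
  · have : ediam (t n) ^ s ≤ r ^ s := by
      refine le_trans ?_ (ht2.le.trans (min_le_right _ _))
      refine le_trans ?_ (ENNReal.le_tsum n)
      simp [hne]
    exact (ENNReal.rpow_le_rpow_iff hs).1 this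
  · rw [not_nonempty_iff_eq_empty.1 hne]; simp

lemma cnt_pos_of_lt_dimH {E : Set X} {s : ℝ≥0} (hs : 0 < s) (h : (s : ℝ≥0∞) < dimH E) :
    cnt X s E ≠ 0 := by
  borelize X
  intro h0
  have h1 := hausdorffMeasure_of_lt_dimH h
  rw [hausdorff_eq_zero (by exact_mod_cast hs) h0] at h1
  exact ENNReal.zero_ne_top h1

lemma le_dimH_of_cnt_ne_zero {E : Set X} {s : ℝ≥0} (h : cnt X s E ≠ 0) :
    (s : ℝ≥0∞) ≤ dimH E := by
  borelize X
  refine le_dimH_of_hausdorffMeasure_ne_zero fun h0 => h ?_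
  exact le_antisymm ((cnt_le_hausdorff _ E).trans_eq h0) zero_le

/-- The set of points all of whose small balls have small content is null. -/
lemma bad_null [SecondCountableTopology X] {s : ℝ} (hs : 0 < s) {δ : ℝ} (hδ : 0 < δ) :
    cnt X s {x | ∀ ρ, 0 < ρ → ρ < δ → cnt X s (closedBall x ρ) < ENNReal.ofReal (ρ ^ s / 2)} =
      0 := by
  set B := {x : X | ∀ ρ, 0 < ρ → ρ < δ → cnt X s (closedBall x ρ) < ENNReal.ofReal (ρ ^ s / 2)}
    with hB
  have key : ∀ k : ℕ, ∀ x ∈ B, ∀ ρ, 0 < ρ → ρ < δ →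
      cnt X s (B ∩ closedBall x ρ) ≤ (2⁻¹) ^ k * ENNReal.ofReal (ρ ^ s) := by
    intro k
    induction k with
    | zero =>
      intro x hx ρ h0 h1
      rw [pow_zero, one_mul]
      refine (measure_mono inter_subset_right).trans ((hx ρ h0 h1).le.trans ?_)
      refine ENNReal.ofReal_le_ofReal ?_
      have : 0 ≤ ρ ^ s := by positivity
      linarith
    | succ k ih =>
      intro x hx ρ h0 h1
      have hne : (B ∩ closedBall x ρ).Nonempty := ⟨x, hx, mem_closedBall_self h0.le⟩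
      have hlt : cnt X s (B ∩ closedBall x ρ) < ENNReal.ofReal (ρ ^ s / 2) :=
        (measure_mono inter_subset_right).trans_lt (hx ρ h0 h1)
      obtain ⟨y, r, hyE, hr, hcov, hsum⟩ := exists_ball_cover hs hne hlt
      have hrδ : ∀ i, r i < δ := by
        intro i
        have h2 : ENNReal.ofReal (r i ^ s) < ENNReal.ofReal (ρ ^ s / 2) :=
          (ENNReal.le_tsum i).trans_lt hsum
        have h3 : r i ^ s < ρ ^ s := by
          have := (ENNReal.ofReal_lt_ofReal_iff (by positivity)).1 h2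
          have : 0 < ρ ^ s := by positivity
          linarith
        exact ((Real.rpow_lt_rpow_iff (hr i).le h0.le hs).1 h3).trans h1
      have hsub : B ∩ closedBall x ρ ⊆ ⋃ i, (B ∩ closedBall (y i) (r i)) := by
        intro z hz
        obtain ⟨i, hi⟩ := mem_iUnion.1 (hcov hz)
        exact mem_iUnion.2 ⟨i, hz.1, ball_subset_closedBall hi⟩
      calc cnt X s (B ∩ closedBall x ρ) ≤ cnt X s (⋃ i, (B ∩ closedBall (y i) (r i))) :=
            measure_mono hsub
        _ ≤ ∑' i, cnt X s (B ∩ closedBall (y i) (r i)) := measure_iUnion_le _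
        _ ≤ ∑' i, (2⁻¹) ^ k * ENNReal.ofReal (r i ^ s) :=
            ENNReal.tsum_le_tsum fun i => ih _ (hyE i).1 _ (hr i) (hrδ i)
        _ = (2⁻¹) ^ k * ∑' i, ENNReal.ofReal (r i ^ s) := ENNReal.tsum_mul_left
        _ ≤ (2⁻¹) ^ k * ENNReal.ofReal (ρ ^ s / 2) := by gcongr
        _ = (2⁻¹) ^ (k + 1) * ENNReal.ofReal (ρ ^ s) := by
            rw [pow_succ, mul_assoc, div_eq_inv_mul, ENNReal.ofReal_mul (by norm_num),
              ENNReal.ofReal_inv_of_pos (by norm_num)]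
            norm_num
  refine measure_null_of_locally_null _ fun x hx => ?_
  refine ⟨B ∩ closedBall x (δ / 2), ?_, ?_⟩
  · exact inter_mem_nhdsWithin _ (closedBall_mem_nhds _ (by positivity))
  · have h1 := fun k => key k x hx (δ / 2) (by positivity) (by linarith)
    have h2 : Tendsto (fun k : ℕ => (2⁻¹ : ℝ≥0∞) ^ k * ENNReal.ofReal ((δ / 2) ^ s)) atTop
        (𝓝 (0 * ENNReal.ofReal ((δ / 2) ^ s))) := by
      refine ENNReal.Tendsto.mul_const ?_ (Or.inr ENNReal.ofReal_ne_top)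
      exact ENNReal.tendsto_pow_atTop_nhds_zero_of_lt_one (by norm_num)
    rw [zero_mul] at h2
    exact le_antisymm (ge_of_tendsto' h2 h1) zero_le

end Pool.Agent.MP_65ee2d_an
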