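import Mathlib
import Pool.Agent.MP_65ee2d_an.Content

set_option autoImplicit false

open MeasureTheory Set Metric TopologicalSpace Filter
open scoped ENNReal NNReal Topology

namespace Pool.Agent.MP_65ee2d_an

variable {X : Type*} [MetricSpace X]

/-- A ball whose content is comparable with the `s`-th power of its radius. -/
def Good (s : ℝ) (v : X × ℝ) : Prop :=
  0 < v.2 ∧ ENNReal.ofReal (v.2 ^ s / 2) ≤ cnt X s (closedBall v.1 v.2)

lemma finite_cover [CompactSpace X] {s : ℝ} (hs : 0 < s) {v : X × ℝ} (hv : Good s v) {δ : ℝ}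
    (hδ : 0 < δ) :
    ∃ F : Set (X × ℝ), F.Finite ∧ (∀ u ∈ F, Good s u ∧ u.2 < δ ∧ dist u.1 v.1 ≤ v.2) ∧
      (∀ u ∈ F, ∀ u' ∈ F, u ≠ u' → 6 * u.2 < dist u.1 u'.1) ∧
      ENNReal.ofReal (v.2 ^ s / 4) ≤ cnt X s (⋃ u ∈ F, closedBall u.1 (20 * u.2)) := by
  classical
  obtain ⟨hv0, hvg⟩ := hv
  set K := closedBall v.1 v.2 with hK
  have hKc : IsCompact K := isClosed_closedBall.isCompact
  set Bad := {x : X | ∀ ρ, 0 < ρ → ρ < δ →
    cnt X s (closedBall x ρ) < ENNReal.ofReal (ρ ^ s / 2)} with hBad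
  have hBadNull : cnt X s Bad = 0 := bad_null hs hδ
  have hsing : cnt X s {v.1} = 0 := by
    refine le_antisymm ((cnt_le_ediam _ _).trans ?_) zero_le
    simp [ENNReal.zero_rpow_of_pos hs]
  have hE : cnt X s (Bad ∪ {v.1}) < ENNReal.ofReal (v.2 ^ s / 4 / 2 ^ s) := by
    refine (measure_union_le _ _).trans_lt ?_
    rw [hBadNull, hsing, add_zero]
    exact ENNReal.ofReal_pos.2 (by positivity)
  obtain ⟨x, r, -, hr, hcov, hsum⟩ := exists_ball_cover hs (E := Bad ∪ {v.1})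
    ⟨v.1, Or.inr rfl⟩ hE
  have hsum2 : ∑' i, ENNReal.ofReal ((2 * r i) ^ s) ≤ ENNReal.ofReal (v.2 ^ s / 4) := by
    have h1 : ∀ i, ENNReal.ofReal ((2 * r i) ^ s) =
        ENNReal.ofReal (2 ^ s) * ENNReal.ofReal (r i ^ s) := by
      intro i
      rw [Real.mul_rpow (by norm_num) (hr i).le, ENNReal.ofReal_mul (by positivity)]
    simp only [h1]
    rw [ENNReal.tsum_mul_left]
    calc ENNReal.ofReal (2 ^ s) * ∑' i, ENNReal.ofReal (r i ^ s)
        ≤ ENNReal.ofReal (2 ^ s) * ENNReal.ofReal (v.2 ^ s / 4 / 2 ^ s) := by gcongr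
      _ = ENNReal.ofReal (v.2 ^ s / 4) := by
          rw [← ENNReal.ofReal_mul (by positivity)]
          congr 1
          field_simp
  -- good radii
  have hgood : ∀ y : {y : X // y ∈ K ∧ y ∉ Bad}, ∃ ρ : ℝ, 0 < ρ ∧ ρ < δ ∧
      ENNReal.ofReal (ρ ^ s / 2) ≤ cnt X s (closedBall (y : X) ρ) := by
    rintro ⟨y, hy, hyB⟩
    simp only [hBad, mem_ofPred_eq, not_forall, not_lt] at hyB
    obtain ⟨ρ, h0, h1, h2⟩ := hyB
    exact ⟨ρ, h0, h1, h2⟩
  choose ρ hρ0 hρδ hρg using hgood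
  let U : ({y : X // y ∈ K ∧ y ∉ Bad} ⊕ ℕ) → Set X :=
    Sum.elim (fun y => ball (y : X) (ρ y)) (fun i => ball (x i) (r i))
  have hUo : ∀ i, IsOpen (U i) := by
    rintro (y | i)
    · exact isOpen_ball
    · exact isOpen_ball
  have hKU : K ⊆ ⋃ i, U i := by
    intro z hz
    by_cases hzB : z ∈ Bad
    · obtain ⟨i, hi⟩ := mem_iUnion.1 (hcov (Or.inl hzB))
      exact mem_iUnion.2 ⟨Sum.inr i, hi⟩
    · exact mem_iUnion.2 ⟨Sum.inl ⟨z, hz, hzB⟩, mem_ball_self (hρ0 _)⟩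
  obtain ⟨T, hT⟩ := hKc.elim_finite_subcover U hUo hKU
  set t : Set {y : X // y ∈ K ∧ y ∉ Bad} := {y | Sum.inl y ∈ T} with ht
  have htfin : t.Finite := by
    refine Set.Finite.preimage (Sum.inl_injective.injOn) (T.finite_toSet)
  obtain ⟨w, hwt, hdisj, hwcov⟩ := Vitali.exists_disjoint_subfamily_covering_enlargement
    (fun y : {y : X // y ∈ K ∧ y ∉ Bad} => closedBall (y : X) (6 * ρ y)) t ρ 2 (by norm_num)
    (fun y _ => (hρ0 y).le) δ (fun y _ => (hρδ y).le)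
    (fun y _ => ⟨y, mem_closedBall_self (by have := hρ0 y; positivity)⟩)
  refine ⟨(fun y : {y : X // y ∈ K ∧ y ∉ Bad} => ((y : X), ρ y)) '' w, (htfin.subset hwt).image _, ?_, ?_, ?_⟩
  · rintro _ ⟨y, hy, rfl⟩
    exact ⟨⟨hρ0 y, hρg y⟩, hρδ y, y.2.1⟩
  · rintro _ ⟨y, hy, rfl⟩ _ ⟨y', hy', rfl⟩ hne
    have hyy' : y ≠ y' := fun h => hne (by rw [h])
    have hd := hdisj hy hy' hyy'
    have h1 : (y' : X) ∉ closedBall (y : X) (6 * ρ y) := by
      intro h
      exact Set.disjoint_left.1 hd h (mem_closedBall_self (by have := hρ0 y'; positivity))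
    rw [mem_closedBall, not_le, dist_comm] at h1
    exact h1
  · have hsub : K ⊆ (⋃ u ∈ (fun y : {y : X // y ∈ K ∧ y ∉ Bad} => ((y : X), ρ y)) '' w, closedBall u.1 (20 * u.2)) ∪
        ⋃ i, ball (x i) (r i) := by
      intro z hz
      obtain ⟨i, hi⟩ := mem_iUnion.1 (hT hz)
      obtain ⟨hiT, hzi⟩ := mem_iUnion.1 hi
      rcases i with y | i
      · left
        obtain ⟨b, hb, ⟨p, hp1, hp2⟩, hb2⟩ := hwcov y hiT
        refine mem_biUnion (mem_image_of_mem _ hb) ?_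
        simp only [mem_closedBall] at hp1 hp2 ⊢
        have hzy : dist z y < ρ y := hzi
        have h3 := dist_triangle4 z y p b
        rw [dist_comm (y : X) p] at h3
        linarith
      · right
        exact mem_iUnion.2 ⟨i, hzi⟩
    have h1 : ENNReal.ofReal (v.2 ^ s / 2) ≤
        cnt X s (⋃ u ∈ (fun y : {y : X // y ∈ K ∧ y ∉ Bad} => ((y : X), ρ y)) '' w, closedBall u.1 (20 * u.2)) +
          ENNReal.ofReal (v.2 ^ s / 4) := by
      refine hvg.trans ((measure_mono hsub).trans ((measure_union_le _ _).trans ?_))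
      gcongr
      refine (measure_iUnion_le _).trans (le_trans (ENNReal.tsum_le_tsum fun i => ?_) hsum2)
      exact (measure_mono ball_subset_closedBall).trans (cnt_closedBall_le hs.le _ (hr i).le)
    have h2 : ENNReal.ofReal (v.2 ^ s / 2) =
        ENNReal.ofReal (v.2 ^ s / 4) + ENNReal.ofReal (v.2 ^ s / 4) := by
      rw [← ENNReal.ofReal_add (by positivity) (by positivity)]
      congr 1; ring
    rw [h2] at h1
    exact (ENNReal.add_le_add_iff_right ENNReal.ofReal_ne_top).1 h1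

open Classical in
/-- The `t`-mass of the family `Y` in the closed ball `(z, ρ)`. -/
noncomputable def mass (t : ℝ) (Y : Finset (X × ℝ)) (z : X) (ρ : ℝ) : ℝ :=
  ∑ u ∈ Y with (dist u.1 z ≤ ρ ∧ u.2 ≤ ρ), u.2 ^ t

lemma mass_mono {t : ℝ} {Y Y' : Finset (X × ℝ)} (h : Y' ⊆ Y) (hY : ∀ u ∈ Y, 0 < u.2) (z : X)
    (ρ : ℝ) : mass t Y' z ρ ≤ mass t Y z ρ := by
  classical
  unfold mass
  refine Finset.sum_le_sum_of_subset_of_nonneg (Finset.filter_subset_filter _ h) ?_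
  intro u hu _
  have := hY u (Finset.mem_filter.1 hu).1
  positivity

lemma selection {s t R : ℝ} (hs : 0 < s) (ht : 0 ≤ t) (hts : t ≤ s) (hR : 0 < R)
    (F : Finset (X × ℝ)) (hF : ∀ u ∈ F, 0 < u.2 ∧ u.2 ≤ R)
    (hcont : ENNReal.ofReal (R ^ s / 4) ≤ cnt X s (⋃ u ∈ F, closedBall u.1 (20 * u.2))) :
    ∃ Y ⊆ F, (∀ z ρ, 0 < ρ → ρ ≤ R → mass t Y z ρ ≤ 2 * ρ ^ t) ∧
      R ^ t / (4 * 90 ^ s) ≤ ∑ u ∈ Y, u.2 ^ t := by
  classical
  -- a maximal admissible family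
  let P : Finset (X × ℝ) → Prop := fun Y => ∀ z ρ, 0 < ρ → ρ ≤ R → mass t Y z ρ ≤ 2 * ρ ^ t
  obtain ⟨Y, hYmem, hYmax⟩ := Finset.exists_max_image (F.powerset.filter P) Finset.card
    ⟨∅, by
      rw [Finset.mem_filter]
      refine ⟨Finset.empty_mem_powerset _, fun z ρ h0 _ => ?_⟩
      simp only [mass, Finset.filter_empty, Finset.sum_empty]
      positivity⟩
  rw [Finset.mem_filter, Finset.mem_powerset] at hYmem
  obtain ⟨hYF, hYP⟩ := hYmem
  have hY0 : ∀ u ∈ Y, 0 < u.2 := fun u hu => (hF u (hYF hu)).1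
  refine ⟨Y, hYF, hYP, ?_⟩
  -- saturated balls
  have hsat : ∀ b : X × ℝ, ∃ D : X × ℝ, b ∈ F → 0 < D.2 ∧ D.2 ≤ R ∧ b.2 ≤ D.2 ∧
      dist b.1 D.1 ≤ D.2 ∧ D.2 ^ t ≤ mass t Y D.1 D.2 := by
    intro b
    by_cases hbF : b ∈ F
    swap
    · exact ⟨b, fun h => absurd h hbF⟩
    obtain ⟨hb0, hbR⟩ := hF b hbF
    by_cases hbY : b ∈ Y
    · refine ⟨b, fun _ => ⟨hb0, hbR, le_rfl, by simpa using hb0.le, ?_⟩⟩
      unfold mass
      refine Finset.single_le_sum (f := fun u : X × ℝ => u.2 ^ t) (fun u hu => ?_) ?_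
      · have := hY0 u (Finset.mem_filter.1 hu).1
        positivity
      · rw [Finset.mem_filter]
        exact ⟨hbY, by simpa using hb0.le, le_rfl⟩
    · have hnP : ¬ P (insert b Y) := by
        intro hP
        have hmem : insert b Y ∈ F.powerset.filter P := by
          rw [Finset.mem_filter, Finset.mem_powerset]
          exact ⟨Finset.insert_subset hbF hYF, hP⟩
        have := hYmax _ hmem
        rw [Finset.card_insert_of_notMem hbY] at this
        omega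
      simp only [P, not_forall, not_le] at hnP
      obtain ⟨z, ρ, h0, hR', hlt⟩ := hnP
      have hle := hYP z ρ h0 hR'
      unfold mass at hlt
      rw [Finset.filter_insert] at hlt
      by_cases hcond : dist b.1 z ≤ ρ ∧ b.2 ≤ ρ
      · rw [if_pos hcond, Finset.sum_insert (by simp [hbY])] at hlt
        have h1 : b.2 ^ t ≤ ρ ^ t := Real.rpow_le_rpow hb0.le hcond.2 ht
        refine ⟨(z, ρ), fun _ => ⟨h0, hR', hcond.2, hcond.1, ?_⟩⟩
        change ρ ^ t ≤ ∑ u ∈ Y with (dist u.1 z ≤ ρ ∧ u.2 ≤ ρ), u.2 ^ t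
        linarith
      · rw [if_neg hcond] at hlt
        exact absurd hle (not_le.2 hlt)
  choose D hD using hsat
  obtain ⟨G, hGF, hdisj, hcov⟩ := Vitali.exists_disjoint_subfamily_covering_enlargement
    (fun b : X × ℝ => closedBall (D b).1 (D b).2) (F : Set (X × ℝ)) (fun b => (D b).2) 2
    (by norm_num) (fun b hb => (hD b hb).1.le) R (fun b hb => (hD b hb).2.1)
    (fun b hb => ⟨(D b).1, mem_closedBall_self (hD b hb).1.le⟩)
  have hGfin : G.Finite := F.finite_toSet.subset hGF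
  set G' := hGfin.toFinset with hG'
  have hG'F : ∀ b ∈ G', b ∈ F := fun b hb => hGF ((hGfin.mem_toFinset).1 hb)
  -- content estimate
  have h1 : R ^ s / 4 ≤ ∑ b ∈ G', (90 * (D b).2) ^ s := by
    have hsub : (⋃ u ∈ F, closedBall u.1 (20 * u.2)) ⊆
        ⋃ b ∈ G', closedBall (D b).1 (45 * (D b).2) := by
      intro q hq
      simp only [mem_iUnion, exists_prop] at hq
      obtain ⟨a, haF, hqa⟩ := hq
      obtain ⟨b, hb, ⟨p, hp1, hp2⟩, hb2⟩ := hcov a haF
      obtain ⟨ha1, ha2, ha3, ha4, ha5⟩ := hD a haF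
      simp only [mem_iUnion, exists_prop]
      refine ⟨b, (hGfin.mem_toFinset).2 hb, ?_⟩
      simp only [mem_closedBall] at hp1 hp2 hqa ⊢
      have h3 := dist_triangle q a.1 (D b).1
      have h4 := dist_triangle4 a.1 (D a).1 p (D b).1
      rw [dist_comm (D a).1 p] at h4
      linarith
    have h2 : ENNReal.ofReal (R ^ s / 4) ≤ ENNReal.ofReal (∑ b ∈ G', (90 * (D b).2) ^ s) := by
      refine hcont.trans ((measure_mono hsub).trans ((measure_biUnion_finset_le _ _).trans ?_))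
      rw [ENNReal.ofReal_sum_of_nonneg]
      · refine Finset.sum_le_sum fun b hb => ?_
        have hb0 := (hD b (hG'F b hb)).1
        refine (cnt_closedBall_le hs.le _ (by positivity)).trans_eq ?_
        congr 2; ring
      · intro b hb
        have hb0 := (hD b (hG'F b hb)).1
        positivity
    rwa [ENNReal.ofReal_le_ofReal_iff] at h2
    refine Finset.sum_nonneg fun b hb => ?_
    have hb0 := (hD b (hG'F b hb)).1
    positivity
  -- mass estimate
  have h2 : ∑ b ∈ G', (D b).2 ^ t ≤ ∑ u ∈ Y, u.2 ^ t := by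
    calc ∑ b ∈ G', (D b).2 ^ t ≤ ∑ b ∈ G', mass t Y (D b).1 (D b).2 :=
          Finset.sum_le_sum fun b hb => (hD b (hG'F b hb)).2.2.2.2
      _ = ∑ u ∈ G'.biUnion fun b => Y.filter fun u => dist u.1 (D b).1 ≤ (D b).2 ∧
            u.2 ≤ (D b).2, u.2 ^ t := by
          rw [Finset.sum_biUnion]
          · rfl
          · intro a ha b hb hab
            rw [Function.onFun, Finset.disjoint_left]
            intro u hu1 hu2
            rw [Finset.mem_filter] at hu1 hu2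
            have := hdisj ((hGfin.mem_toFinset).1 ha) ((hGfin.mem_toFinset).1 hb) hab
            exact Set.disjoint_left.1 this (mem_closedBall.2 hu1.2.1) (mem_closedBall.2 hu2.2.1)
      _ ≤ ∑ u ∈ Y, u.2 ^ t := by
          refine Finset.sum_le_sum_of_subset_of_nonneg ?_ ?_
          · intro u hu
            rw [Finset.mem_biUnion] at hu
            obtain ⟨b, _, hb⟩ := hu
            exact (Finset.mem_filter.1 hb).1
          · intro u hu _
            have := hY0 u hu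
            positivity
  have h3 : ∀ b ∈ G', R ^ (t - s) * (D b).2 ^ s ≤ (D b).2 ^ t := by
    intro b hb
    obtain ⟨hb0, hbR, -⟩ := hD b (hG'F b hb)
    have : R ^ (t - s) ≤ (D b).2 ^ (t - s) :=
      Real.rpow_le_rpow_of_nonpos hb0 hbR (by linarith)
    calc R ^ (t - s) * (D b).2 ^ s ≤ (D b).2 ^ (t - s) * (D b).2 ^ s := by gcongr
      _ = (D b).2 ^ t := by rw [← Real.rpow_add hb0]; congr 1; ring
  refine le_trans ?_ h2
  calc R ^ t / (4 * 90 ^ s) = R ^ (t - s) * (90 ^ s)⁻¹ * (R ^ s / 4) := by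
        have : R ^ t = R ^ (t - s) * R ^ s := by rw [← Real.rpow_add hR]; congr 1; ring
        rw [this]
        field_simp
    _ ≤ R ^ (t - s) * (90 ^ s)⁻¹ * ∑ b ∈ G', (90 * (D b).2) ^ s := by gcongr
    _ = ∑ b ∈ G', R ^ (t - s) * (D b).2 ^ s := by
        rw [Finset.mul_sum]
        refine Finset.sum_congr rfl fun b hb => ?_
        have hb0 := (hD b (hG'F b hb)).1
        rw [Real.mul_rpow (by norm_num) hb0.le]
        have : (0 : ℝ) < 90 ^ s := by positivity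
        field_simp
    _ ≤ ∑ b ∈ G', (D b).2 ^ t := Finset.sum_le_sum h3

lemma trim {t R c : ℝ} (ht : 0 ≤ t) (hR : 0 < R) (hc0 : 0 < c) (hc : c ≤ 1)
    (Y : Finset (X × ℝ)) (hY : ∀ u ∈ Y, 0 < u.2 ∧ u.2 ≤ R)
    (hsum : c * R ^ t ≤ ∑ u ∈ Y, u.2 ^ t) :
    ∃ Y' ⊆ Y, c * R ^ t ≤ ∑ u ∈ Y', u.2 ^ t ∧ ∑ u ∈ Y', u.2 ^ t ≤ 2 * R ^ t := by
  classical
  obtain ⟨Y', hmem, hmin⟩ := Finset.exists_min_image
    (Y.powerset.filter fun Z => c * R ^ t ≤ ∑ u ∈ Z, u.2 ^ t) Finset.card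
    ⟨Y, by rw [Finset.mem_filter]; exact ⟨Finset.mem_powerset_self _, hsum⟩⟩
  rw [Finset.mem_filter, Finset.mem_powerset] at hmem
  refine ⟨Y', hmem.1, hmem.2, ?_⟩
  have hRt : 0 < R ^ t := by positivity
  rcases Y'.eq_empty_or_nonempty with h | ⟨u, hu⟩
  · rw [h]; simp only [Finset.sum_empty]; positivity
  · obtain ⟨hu0, huR⟩ := hY u (hmem.1 hu)
    have h1 : ∑ u ∈ Y'.erase u, u.2 ^ t < c * R ^ t := by
      by_contra hcon
      rw [not_lt] at hcon
      have := hmin (Y'.erase u) (by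
        rw [Finset.mem_filter, Finset.mem_powerset]
        exact ⟨(Finset.erase_subset _ _).trans hmem.1, hcon⟩)
      rw [Finset.card_erase_of_mem hu] at this
      have := Finset.card_pos.2 ⟨u, hu⟩
      omega
    have h2 : u.2 ^ t ≤ R ^ t := Real.rpow_le_rpow hu0.le huR ht
    rw [← Finset.add_sum_erase _ _ hu]
    nlinarith

/-- The constant of the one step construction. -/
noncomputable def cst (s : ℝ) : ℝ := 1 / (4 * 90 ^ s)

lemma cst_pos (s : ℝ) : 0 < cst s := by unfold cst; positivity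

lemma cst_le_one {s : ℝ} (hs : 0 ≤ s) : cst s ≤ 1 := by
  unfold cst
  rw [div_le_one (by positivity)]
  have : (1 : ℝ) ≤ 90 ^ s := Real.one_le_rpow (by norm_num) hs
  linarith

/-- One step of the construction. -/
theorem one_step [CompactSpace X] {s t : ℝ} (hs : 0 < s) (ht : 0 ≤ t) (hts : t ≤ s)
    {v : X × ℝ} (hv : Good s v) {δ : ℝ} (hδ : 0 < δ) :
    ∃ Y : Finset (X × ℝ),
      (∀ u ∈ Y, Good s u ∧ u.2 < δ ∧ 2 * u.2 ≤ v.2 ∧ dist u.1 v.1 ≤ v.2) ∧
      (∀ u ∈ Y, ∀ u' ∈ Y, u ≠ u' → 6 * u.2 < dist u.1 u'.1) ∧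
      cst s * v.2 ^ t ≤ ∑ u ∈ Y, u.2 ^ t ∧ ∑ u ∈ Y, u.2 ^ t ≤ 2 * v.2 ^ t ∧
      ∀ z ρ, 0 < ρ → ρ ≤ v.2 → mass t Y z ρ ≤ 2 * ρ ^ t := by
  classical
  have hv0 := hv.1
  obtain ⟨F, hFfin, hF1, hF2, hF3⟩ := finite_cover hs hv (δ := min δ (v.2 / 2))
    (lt_min hδ (by positivity))
  have hFR : ∀ u ∈ hFfin.toFinset, 0 < u.2 ∧ u.2 ≤ v.2 := by
    intro u hu
    obtain ⟨h1, h2, h3⟩ := hF1 u (hFfin.mem_toFinset.1 hu)
    refine ⟨h1.1, ?_⟩
    have := h2.trans_le (min_le_right _ _)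
    linarith
  obtain ⟨Y, hYF, hY1, hY2⟩ := selection hs ht hts hv0 hFfin.toFinset hFR
    (by simpa using hF3)
  obtain ⟨Y', hY'Y, hY'1, hY'2⟩ := trim (c := cst s) ht hv0 (cst_pos s) (cst_le_one hs.le) Y
    (fun u hu => hFR u (hYF hu)) (by
      refine le_trans (le_of_eq ?_) hY2
      unfold cst; ring)
  refine ⟨Y', ?_, ?_, hY'1, hY'2, ?_⟩
  · intro u hu
    obtain ⟨h1, h2, h3⟩ := hF1 u (hFfin.mem_toFinset.1 (hYF (hY'Y hu)))
    refine ⟨h1, h2.trans_le (min_le_left _ _), ?_, h3⟩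
    have := h2.trans_le (min_le_right _ _)
    linarith
  · intro u hu u' hu' hne
    exact hF2 u (hFfin.mem_toFinset.1 (hYF (hY'Y hu))) u' (hFfin.mem_toFinset.1 (hYF (hY'Y hu'))) hne
  · intro z ρ h0 h1
    exact (mass_mono hY'Y (fun u hu => (hFR u (hYF hu)).1) z ρ).trans (hY1 z ρ h0 h1)

end Pool.Agent.MP_65ee2d_an
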