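import Mathlib
import Pool.Agent.MP_65ee2d_an.OneStep

set_option autoImplicit false

open MeasureTheory Set Metric TopologicalSpace Filter
open scoped ENNReal NNReal Topology

namespace Pool.Agent.MP_65ee2d_an

variable {X : Type*} [MetricSpace X]

/-- The scale used for the children of a ball of radius `r` of generation `n`, when there are `N`
balls in that generation. -/
noncomputable def scale (s : ℝ) (n N : ℕ) (r : ℝ) : ℝ :=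
  min ((1 / 2 : ℝ) ^ (n + 1)) (min (((1 / 2 : ℝ) ^ n / (N + 1)) ^ (n + 1)) (cst s ^ (n + 1) * r))

lemma scale_pos {s : ℝ} {n N : ℕ} {r : ℝ} (hr : 0 < r) : 0 < scale s n N r := by
  have := cst_pos s
  unfold scale
  refine lt_min (by positivity) (lt_min (by positivity) (by positivity))

lemma scale_le_pow (s : ℝ) (n N : ℕ) (r : ℝ) : scale s n N r ≤ (1 / 2 : ℝ) ^ (n + 1) :=
  min_le_left _ _

lemma scale_le_two (s : ℝ) (n N : ℕ) (r : ℝ) :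
    scale s n N r ≤ ((1 / 2 : ℝ) ^ n / (N + 1)) ^ (n + 1) :=
  (min_le_right _ _).trans (min_le_left _ _)

lemma scale_le_three (s : ℝ) (n N : ℕ) (r : ℝ) : scale s n N r ≤ cst s ^ (n + 1) * r :=
  (min_le_right _ _).trans (min_le_right _ _)

/-- The enlarged ball. -/
def bb (v : X × ℝ) : Set X := closedBall v.1 (2 * v.2)

section

variable [CompactSpace X]

open Classical in
/-- The children of a ball. -/
noncomputable def ch (s : ℝ) (n N : ℕ) (v : X × ℝ) (t : ℝ) : Finset (X × ℝ) :=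
  if h : 0 < s ∧ 0 ≤ t ∧ t ≤ s ∧ Good s v then
    (one_step h.1 h.2.1 h.2.2.1 h.2.2.2 (δ := scale s n N v.2) (scale_pos h.2.2.2.1)).choose
  else ∅

lemma ch_spec {s t : ℝ} (hs : 0 < s) (ht : 0 ≤ t) (hts : t ≤ s) (n N : ℕ)
    {v : X × ℝ} (hv : Good s v) :
    (∀ u ∈ ch s n N v t, Good s u ∧ u.2 < scale s n N v.2 ∧ 2 * u.2 ≤ v.2 ∧ dist u.1 v.1 ≤ v.2) ∧
      (∀ u ∈ ch s n N v t, ∀ u' ∈ ch s n N v t, u ≠ u' → 6 * u.2 < dist u.1 u'.1) ∧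
      cst s * v.2 ^ t ≤ ∑ u ∈ ch s n N v t, u.2 ^ t ∧ ∑ u ∈ ch s n N v t, u.2 ^ t ≤ 2 * v.2 ^ t ∧
      ∀ z ρ, 0 < ρ → ρ ≤ v.2 → mass t (ch s n N v t) z ρ ≤ 2 * ρ ^ t := by
  have h : 0 < s ∧ 0 ≤ t ∧ t ≤ s ∧ Good s v := ⟨hs, ht, hts, hv⟩
  unfold ch
  rw [dif_pos h]
  exact (one_step h.1 h.2.1 h.2.2.1 h.2.2.2 (δ := scale s n N v.2)
    (scale_pos h.2.2.2.1)).choose_spec

open Classical in
/-- The generations of the construction. -/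
noncomputable def lev (s : ℝ) (v₀ : X × ℝ) (τ : ℕ → ℝ) : ℕ → Finset (X × ℝ)
  | 0 => {v₀}
  | n + 1 => (lev s v₀ τ n).biUnion fun v => ch s n (lev s v₀ τ n).card v (τ n)

lemma lev_zero (s : ℝ) (v₀ : X × ℝ) (τ : ℕ → ℝ) : lev s v₀ τ 0 = {v₀} := rfl

open Classical in
lemma lev_succ (s : ℝ) (v₀ : X × ℝ) (τ : ℕ → ℝ) (n : ℕ) : lev s v₀ τ (n + 1) =
    (lev s v₀ τ n).biUnion fun v => ch s n (lev s v₀ τ n).card v (τ n) := rfl

lemma mem_lev_succ {s : ℝ} {v₀ : X × ℝ} {τ : ℕ → ℝ} {n : ℕ} {u : X × ℝ} :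
    u ∈ lev s v₀ τ (n + 1) ↔
      ∃ v ∈ lev s v₀ τ n, u ∈ ch s n (lev s v₀ τ n).card v (τ n) := by
  classical
  rw [lev_succ, Finset.mem_biUnion]

lemma lev_congr (s : ℝ) (v₀ : X × ℝ) {τ τ' : ℕ → ℝ} (n : ℕ) (h : ∀ m < n, τ m = τ' m) :
    lev s v₀ τ n = lev s v₀ τ' n := by
  induction n with
  | zero => rfl
  | succ n ih =>
    rw [lev_succ, lev_succ, ih (fun m hm => h m (by omega)), h n (by omega)]

variable {s : ℝ} {v₀ : X × ℝ} {τ : ℕ → ℝ}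

lemma lev_good (hs : 0 < s) (hv₀ : Good s v₀) (h1 : v₀.2 ≤ 1) (hτ : ∀ n, 0 ≤ τ n ∧ τ n ≤ s) :
    ∀ n, ∀ v ∈ lev s v₀ τ n, Good s v ∧ v.2 ≤ (1 / 2 : ℝ) ^ n := by
  intro n
  induction n with
  | zero =>
    intro v hv
    rw [lev_zero, Finset.mem_singleton] at hv
    subst hv
    exact ⟨hv₀, by simpa using h1⟩
  | succ n ih =>
    intro u hu
    obtain ⟨v, hv, huv⟩ := mem_lev_succ.1 hu
    obtain ⟨h2, -⟩ := ch_spec hs (hτ n).1 (hτ n).2 n (lev s v₀ τ n).card (ih v hv).1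
    obtain ⟨h3, h4, -⟩ := h2 u huv
    exact ⟨h3, (h4.trans_le (scale_le_pow _ _ _ _)).le⟩

lemma bb_subset (hs : 0 < s) {t : ℝ} (ht : 0 ≤ t) (hts : t ≤ s) {n N : ℕ} {v : X × ℝ}
    (hv : Good s v) {u : X × ℝ} (hu : u ∈ ch s n N v t) : bb u ⊆ bb v := by
  obtain ⟨h2, -⟩ := ch_spec hs ht hts n N hv
  obtain ⟨-, -, h3, h4⟩ := h2 u hu
  refine closedBall_subset_closedBall' ?_
  linarith

lemma ch_nonempty (hs : 0 < s) {t : ℝ} (ht : 0 ≤ t) (hts : t ≤ s) {n N : ℕ} {v : X × ℝ}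
    (hv : Good s v) : (ch s n N v t).Nonempty := by
  obtain ⟨-, -, h2, -⟩ := ch_spec hs ht hts n N hv
  by_contra h
  rw [Finset.not_nonempty_iff_eq_empty] at h
  rw [h, Finset.sum_empty] at h2
  have := cst_pos s
  have := hv.1
  have : 0 < cst s * v.2 ^ t := by positivity
  linarith

/-- The limit set. -/
def Eset (s : ℝ) (v₀ : X × ℝ) (τ : ℕ → ℝ) : Set X := ⋂ n, ⋃ v ∈ lev s v₀ τ n, bb v

lemma isClosed_lev (s : ℝ) (v₀ : X × ℝ) (τ : ℕ → ℝ) (n : ℕ) :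
    IsClosed (⋃ v ∈ lev s v₀ τ n, bb v) :=
  isClosed_biUnion_finset fun _ _ => isClosed_closedBall

lemma isClosed_Eset (s : ℝ) (v₀ : X × ℝ) (τ : ℕ → ℝ) : IsClosed (Eset s v₀ τ) :=
  isClosed_iInter fun n => isClosed_lev s v₀ τ n

lemma lev_antitone (hs : 0 < s) (hv₀ : Good s v₀) (h1 : v₀.2 ≤ 1)
    (hτ : ∀ n, 0 ≤ τ n ∧ τ n ≤ s) (n : ℕ) :
    (⋃ v ∈ lev s v₀ τ (n + 1), bb v) ⊆ ⋃ v ∈ lev s v₀ τ n, bb v := by
  intro x hx
  simp only [mem_iUnion, exists_prop] at hx ⊢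
  obtain ⟨u, hu, hxu⟩ := hx
  obtain ⟨v, hv, huv⟩ := mem_lev_succ.1 hu
  exact ⟨v, hv, bb_subset hs (hτ n).1 (hτ n).2 (lev_good hs hv₀ h1 hτ n v hv).1 huv hxu⟩

lemma exists_desc (hs : 0 < s) (hv₀ : Good s v₀) (h1 : v₀.2 ≤ 1)
    (hτ : ∀ n, 0 ≤ τ n ∧ τ n ≤ s) {n : ℕ} {v : X × ℝ} (hv : v ∈ lev s v₀ τ n) (k : ℕ) :
    ∃ u ∈ lev s v₀ τ (n + k), bb u ⊆ bb v := by
  induction k with
  | zero => exact ⟨v, hv, Subset.rfl⟩
  | succ k ih =>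
    obtain ⟨u, hu, huv⟩ := ih
    have hg := (lev_good hs hv₀ h1 hτ _ u hu).1
    obtain ⟨w, hw⟩ := ch_nonempty hs (hτ (n + k)).1 (hτ (n + k)).2 (n := n + k)
      (N := (lev s v₀ τ (n + k)).card) hg
    refine ⟨w, ?_, (bb_subset hs (hτ _).1 (hτ _).2 hg hw).trans huv⟩
    exact mem_lev_succ.2 ⟨u, hu, hw⟩

lemma Eset_inter (hs : 0 < s) (hv₀ : Good s v₀) (h1 : v₀.2 ≤ 1)
    (hτ : ∀ n, 0 ≤ τ n ∧ τ n ≤ s) {n : ℕ} {v : X × ℝ} (hv : v ∈ lev s v₀ τ n) :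
    (bb v ∩ Eset s v₀ τ).Nonempty := by
  have hanti : Antitone fun n => ⋃ v ∈ lev s v₀ τ n, bb v :=
    antitone_nat_of_succ_le fun n => lev_antitone hs hv₀ h1 hτ n
  have h := IsCompact.nonempty_iInter_of_sequence_nonempty_isCompact_isClosed
    (fun k => bb v ∩ ⋃ u ∈ lev s v₀ τ (n + k), bb u) ?_ ?_ ?_ ?_
  · obtain ⟨x, hx⟩ := h
    rw [mem_iInter] at hx
    refine ⟨x, (hx 0).1, mem_iInter.2 fun m => ?_⟩
    exact hanti (Nat.le_add_left m n) (hx m).2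
  · intro k
    refine inter_subset_inter_right _ ?_
    exact hanti (by omega)
  · intro k
    obtain ⟨u, hu, huv⟩ := exists_desc hs hv₀ h1 hτ hv k
    have hg := (lev_good hs hv₀ h1 hτ _ u hu).1
    have hmem : u.1 ∈ bb u := mem_closedBall_self (by have := hg.1; positivity)
    exact ⟨u.1, huv hmem, mem_biUnion hu hmem⟩
  · exact (isClosed_closedBall.inter (isClosed_lev _ _ _ _)).isCompact
  · intro k
    exact isClosed_closedBall.inter (isClosed_lev _ _ _ _)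

lemma Eset_nonempty (hs : 0 < s) (hv₀ : Good s v₀) (h1 : v₀.2 ≤ 1)
    (hτ : ∀ n, 0 ≤ τ n ∧ τ n ≤ s) : (Eset s v₀ τ).Nonempty := by
  have := Eset_inter (n := 0) (v := v₀) hs hv₀ h1 hτ (by rw [lev_zero]; simp)
  exact this.mono inter_subset_right

lemma Eset_subset (s : ℝ) (v₀ : X × ℝ) (τ : ℕ → ℝ) : Eset s v₀ τ ⊆ bb v₀ := by
  intro x hx
  have := mem_iInter.1 hx 0
  simpa [lev_zero] using this

lemma Eset_close (hs : 0 < s) (hv₀ : Good s v₀) (h1 : v₀.2 ≤ 1) {τ' : ℕ → ℝ}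
    (hτ : ∀ n, 0 ≤ τ n ∧ τ n ≤ s) (hτ' : ∀ n, 0 ≤ τ' n ∧ τ' n ≤ s) (n : ℕ)
    (h : ∀ m < n, τ m = τ' m) : ∀ x ∈ Eset s v₀ τ, ∃ y ∈ Eset s v₀ τ', dist x y ≤
      4 * (1 / 2 : ℝ) ^ n := by
  intro x hx
  have hx' := mem_iInter.1 hx n
  simp only [mem_iUnion, exists_prop] at hx'
  obtain ⟨v, hv, hxv⟩ := hx'
  have hv2 := (lev_good hs hv₀ h1 hτ n v hv).2
  rw [lev_congr s v₀ n h] at hv
  obtain ⟨y, hyv, hy⟩ := Eset_inter hs hv₀ h1 hτ' hv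
  refine ⟨y, hy, ?_⟩
  have h3 : dist x v.1 ≤ 2 * v.2 := hxv
  have h4 : dist y v.1 ≤ 2 * v.2 := hyv
  linarith [dist_triangle_right x y v.1]

end

end Pool.Agent.MP_65ee2d_an
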