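import Mathlib
import Pool.Agent.MP_65ee2d_an.Tree

set_option autoImplicit false

open MeasureTheory Set Metric TopologicalSpace Filter
open scoped ENNReal NNReal Topology

namespace Pool.Agent.MP_65ee2d_an

lemma sum_biUnion_le {ι κ : Type*} [DecidableEq ι] (S : Finset κ) (T : κ → Finset ι) (f : ι → ℝ)
    (hf : ∀ v ∈ S, ∀ u ∈ T v, 0 ≤ f u) :
    ∑ u ∈ S.biUnion T, f u ≤ ∑ v ∈ S, ∑ u ∈ T v, f u := by
  classical
  induction S using Finset.induction_on with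
  | empty => simp
  | insert a S ha ih =>
    rw [Finset.biUnion_insert, Finset.sum_insert ha]
    have h1 := Finset.sum_union_inter (s₁ := T a) (s₂ := S.biUnion T) (f := f)
    have h2 : 0 ≤ ∑ u ∈ T a ∩ S.biUnion T, f u := Finset.sum_nonneg fun u hu =>
      hf a (Finset.mem_insert_self _ _) u (Finset.mem_inter.1 hu).1
    have h3 := ih fun v hv => hf v (Finset.mem_insert_of_mem hv)
    linarith

variable {X : Type*} [MetricSpace X] [CompactSpace X] {s : ℝ} {v₀ : X × ℝ} {τ : ℕ → ℝ}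

/-! ### Upper bound -/

lemma sum_lev_succ_le (hs : 0 < s) (hv₀ : Good s v₀) (h1 : v₀.2 ≤ 1)
    (hτ : ∀ n, 0 ≤ τ n ∧ τ n ≤ s) {d : ℝ} {n : ℕ} (hn : 1 / ((n : ℝ) + 1) ≤ d - τ n) :
    ∑ u ∈ lev s v₀ τ (n + 1), u.2 ^ d ≤ 2 * (1 / 2 : ℝ) ^ n := by
  classical
  set N := (lev s v₀ τ n).card with hN
  have hg := lev_good hs hv₀ h1 hτ
  have hn0 : (0 : ℝ) < 1 / ((n : ℝ) + 1) := by positivity
  have hchild : ∀ v ∈ lev s v₀ τ n, ∑ u ∈ ch s n N v (τ n), u.2 ^ d ≤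
      2 * ((1 / 2 : ℝ) ^ n / (N + 1)) := by
    intro v hv
    obtain ⟨hgv, hv2⟩ := hg n v hv
    have hv1 : v.2 ≤ 1 := hv2.trans (pow_le_one₀ (by norm_num) (by norm_num))
    obtain ⟨c1, c2, c3, c4, c5⟩ := ch_spec hs (hτ n).1 (hτ n).2 n N hgv
    have hterm : ∀ u ∈ ch s n N v (τ n), u.2 ^ d ≤ u.2 ^ (τ n) * ((1 / 2 : ℝ) ^ n / (N + 1)) := by
      intro u hu
      obtain ⟨hgu, hu2, hu3, hu4⟩ := c1 u hu
      have hu0 := hgu.1
      have hu1 : u.2 ≤ 1 := by linarith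
      have e1 : u.2 ^ d = u.2 ^ (τ n) * u.2 ^ (d - τ n) := by
        rw [← Real.rpow_add hu0]; congr 1; ring
      have e2 : u.2 ^ (d - τ n) ≤ u.2 ^ (1 / ((n : ℝ) + 1)) :=
        Real.rpow_le_rpow_of_exponent_ge hu0 hu1 hn
      have e3 : u.2 ^ (1 / ((n : ℝ) + 1)) ≤
          (((1 / 2 : ℝ) ^ n / (N + 1)) ^ (n + 1)) ^ (1 / ((n : ℝ) + 1)) :=
        Real.rpow_le_rpow hu0.le (hu2.le.trans (scale_le_two _ _ _ _)) hn0.le
      have e4 : (((1 / 2 : ℝ) ^ n / (N + 1)) ^ (n + 1)) ^ (1 / ((n : ℝ) + 1)) =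
          (1 / 2 : ℝ) ^ n / (N + 1) := by
        rw [← Real.rpow_natCast, ← Real.rpow_mul (by positivity)]
        push_cast
        rw [mul_one_div_cancel (by positivity), Real.rpow_one]
      rw [e1]
      rw [e4] at e3
      have : 0 ≤ u.2 ^ (τ n) := by positivity
      exact mul_le_mul_of_nonneg_left (e2.trans e3) this
    have hv0 := hgv.1
    have hvt : v.2 ^ (τ n) ≤ 1 := Real.rpow_le_one hv0.le hv1 (hτ n).1
    calc ∑ u ∈ ch s n N v (τ n), u.2 ^ d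
        ≤ ∑ u ∈ ch s n N v (τ n), u.2 ^ (τ n) * ((1 / 2 : ℝ) ^ n / (N + 1)) :=
          Finset.sum_le_sum hterm
      _ = (∑ u ∈ ch s n N v (τ n), u.2 ^ (τ n)) * ((1 / 2 : ℝ) ^ n / (N + 1)) := by
          rw [Finset.sum_mul]
      _ ≤ (2 * 1) * ((1 / 2 : ℝ) ^ n / (N + 1)) := by
          gcongr
          linarith
      _ = _ := by ring
  have hnonneg : ∀ v ∈ lev s v₀ τ n, ∀ u ∈ ch s n N v (τ n), 0 ≤ u.2 ^ d := by
    intro v hv u hu
    obtain ⟨c1, -⟩ := ch_spec hs (hτ n).1 (hτ n).2 n N (hg n v hv).1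
    have := (c1 u hu).1.1
    positivity
  calc ∑ u ∈ lev s v₀ τ (n + 1), u.2 ^ d
      ≤ ∑ v ∈ lev s v₀ τ n, ∑ u ∈ ch s n N v (τ n), u.2 ^ d := by
        have h2 : lev s v₀ τ (n + 1) = (lev s v₀ τ n).biUnion fun v => ch s n N v (τ n) := by
          ext u
          rw [mem_lev_succ, Finset.mem_biUnion]
        rw [h2]
        exact sum_biUnion_le _ _ _ hnonneg
    _ ≤ ∑ v ∈ lev s v₀ τ n, 2 * ((1 / 2 : ℝ) ^ n / (N + 1)) := Finset.sum_le_sum hchild
    _ = N * (2 * ((1 / 2 : ℝ) ^ n / (N + 1))) := by rw [Finset.sum_const, nsmul_eq_mul]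
    _ ≤ 2 * (1 / 2 : ℝ) ^ n := by
        have h3 : (N : ℝ) / (N + 1) ≤ 1 := by
          rw [div_le_one (by positivity)]; linarith
        have h4 : (N : ℝ) * (2 * ((1 / 2 : ℝ) ^ n / (N + 1))) =
            (N : ℝ) / (N + 1) * (2 * (1 / 2 : ℝ) ^ n) := by ring
        rw [h4]
        have : (0 : ℝ) ≤ 2 * (1 / 2 : ℝ) ^ n := by positivity
        nlinarith

lemma ediam_bb_le (v : X × ℝ) : ediam (bb v) ≤ ENNReal.ofReal (4 * v.2) := by
  refine ediam_le fun y hy z hz => ?_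
  rw [edist_dist]
  refine ENNReal.ofReal_le_ofReal ?_
  have h1 : dist y v.1 ≤ 2 * v.2 := hy
  have h2 : dist z v.1 ≤ 2 * v.2 := hz
  linarith [dist_triangle_right y z v.1]

lemma dimH_le_of_lt (hs : 0 < s) (hv₀ : Good s v₀) (h1 : v₀.2 ≤ 1)
    (hτ : ∀ n, 0 ≤ τ n ∧ τ n ≤ s) {a : ℝ} (ha : Tendsto τ atTop (𝓝 a)) {d : ℝ≥0}
    (hd : a < d) : dimH (Eset s v₀ τ) ≤ d := by
  borelize X
  refine dimH_le_of_hausdorffMeasure_ne_top ?_
  have hg := lev_good hs hv₀ h1 hτ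
  obtain ⟨a', ha1, ha2⟩ := exists_between hd
  have hev1 : ∀ᶠ n in atTop, τ n < a' := ha.eventually_lt_const ha1
  have hev2 : ∀ᶠ n : ℕ in atTop, 1 / ((n : ℝ) + 1) < d - a' :=
    tendsto_one_div_add_atTop_nhds_zero_nat.eventually_lt_const (by linarith)
  have hsum : ∀ᶠ n : ℕ in atTop, ∑ u : {u // u ∈ lev s v₀ τ (n + 1)}, ediam (bb u.1) ^ (d : ℝ) ≤
      ENNReal.ofReal (4 ^ (d : ℝ) * (2 * (1 / 2 : ℝ) ^ n)) := by
    filter_upwards [hev1, hev2] with n hn1 hn2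
    have h2 := sum_lev_succ_le hs hv₀ h1 hτ (d := d) (n := n) (by linarith)
    calc ∑ u : {u // u ∈ lev s v₀ τ (n + 1)}, ediam (bb u.1) ^ (d : ℝ)
        ≤ ∑ u : {u // u ∈ lev s v₀ τ (n + 1)}, ENNReal.ofReal ((4 * u.1.2) ^ (d : ℝ)) := by
          refine Finset.sum_le_sum fun u _ => ?_
          have hu0 := (hg _ u.1 u.2).1.1
          rw [← ENNReal.ofReal_rpow_of_nonneg (by positivity) (by positivity)]
          exact ENNReal.rpow_le_rpow (ediam_bb_le _) (by positivity)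
      _ = ENNReal.ofReal (∑ u : {u // u ∈ lev s v₀ τ (n + 1)}, (4 * u.1.2) ^ (d : ℝ)) := by
          rw [ENNReal.ofReal_sum_of_nonneg]
          intro u _
          have hu0 := (hg _ u.1 u.2).1.1
          positivity
      _ ≤ _ := by
          refine ENNReal.ofReal_le_ofReal ?_
          have h3 : ∑ u : {u // u ∈ lev s v₀ τ (n + 1)}, (4 * u.1.2) ^ (d : ℝ) =
              ∑ u ∈ lev s v₀ τ (n + 1), (4 * u.2) ^ (d : ℝ) :=
            Finset.sum_coe_sort (lev s v₀ τ (n + 1)) (fun u => (4 * u.2) ^ (d : ℝ))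
          rw [h3]
          have h4 : ∑ u ∈ lev s v₀ τ (n + 1), (4 * u.2) ^ (d : ℝ) =
              4 ^ (d : ℝ) * ∑ u ∈ lev s v₀ τ (n + 1), u.2 ^ (d : ℝ) := by
            rw [Finset.mul_sum]
            refine Finset.sum_congr rfl fun u hu => ?_
            have hu0 := (hg _ u hu).1.1
            rw [Real.mul_rpow (by norm_num) hu0.le]
          rw [h4]
          gcongr
  have hlim : Tendsto (fun n : ℕ => ENNReal.ofReal (4 ^ (d : ℝ) * (2 * (1 / 2 : ℝ) ^ n))) atTop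
      (𝓝 0) := by
    rw [← ENNReal.ofReal_zero]
    refine ENNReal.tendsto_ofReal ?_
    have := tendsto_pow_atTop_nhds_zero_of_lt_one (r := (1 / 2 : ℝ)) (by norm_num) (by norm_num)
    have := (this.const_mul 2).const_mul (4 ^ (d : ℝ))
    simpa using this
  have hle := Measure.hausdorffMeasure_le_liminf_sum (β := ℕ)
    (ι := fun n => {u // u ∈ lev s v₀ τ (n + 1)}) (d : ℝ) (Eset s v₀ τ) (l := atTop)
    (fun n => ENNReal.ofReal (4 * (1 / 2 : ℝ) ^ (n + 1))) ?_ (fun n u => bb u.1) ?_ ?_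
  · have h0 : Tendsto (fun n : ℕ => ∑ u : {u // u ∈ lev s v₀ τ (n + 1)}, ediam (bb u.1) ^ (d : ℝ))
        atTop (𝓝 0) :=
      tendsto_of_tendsto_of_tendsto_of_le_of_le' tendsto_const_nhds hlim
        (Eventually.of_forall fun _ => zero_le) hsum
    rw [h0.liminf_eq] at hle
    exact (lt_of_le_of_lt hle ENNReal.zero_lt_top).ne
  · rw [← ENNReal.ofReal_zero]
    refine ENNReal.tendsto_ofReal ?_
    have := tendsto_pow_atTop_nhds_zero_of_lt_one (r := (1 / 2 : ℝ)) (by norm_num) (by norm_num)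
    have := ((tendsto_add_atTop_iff_nat 1).2 this).const_mul 4
    simpa using this
  · refine Eventually.of_forall fun n u => (ediam_bb_le _).trans (ENNReal.ofReal_le_ofReal ?_)
    have := (hg _ u.1 u.2).2
    linarith
  · refine Eventually.of_forall fun n x hx => ?_
    have hx' := mem_iInter.1 hx (n + 1)
    simp only [mem_iUnion, exists_prop] at hx' ⊢
    obtain ⟨v, hv, hxv⟩ := hx'
    exact ⟨⟨v, hv⟩, hxv⟩

/-! ### Lower bound -/

open Classical in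
/-- The proportion of the mass of `v` carried by the descendants, `k` generations later, that
meet `U`. -/
noncomputable def frac (s : ℝ) (v₀ : X × ℝ) (τ : ℕ → ℝ) : ℕ → ℕ → X × ℝ → Set X → ℝ
  | 0, _, v, U => if (bb v ∩ U).Nonempty then 1 else 0
  | k + 1, n, v, U => (∑ u ∈ ch s n (lev s v₀ τ n).card v (τ n), u.2 ^ (τ n) *
      frac s v₀ τ k (n + 1) u U) / ∑ u ∈ ch s n (lev s v₀ τ n).card v (τ n), u.2 ^ (τ n)

lemma sum_ch_pos (hs : 0 < s) {t : ℝ} (ht : 0 ≤ t) (hts : t ≤ s) (n N : ℕ) {v : X × ℝ}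
    (hv : Good s v) : 0 < ∑ u ∈ ch s n N v t, u.2 ^ t := by
  obtain ⟨-, -, h2, -⟩ := ch_spec hs ht hts n N hv
  have := cst_pos s
  have := hv.1
  have : 0 < cst s * v.2 ^ t := by positivity
  linarith

lemma mem_lev_of_ch {n : ℕ} {v u : X × ℝ} (hv : v ∈ lev s v₀ τ n)
    (hu : u ∈ ch s n (lev s v₀ τ n).card v (τ n)) : u ∈ lev s v₀ τ (n + 1) :=
  mem_lev_succ.2 ⟨v, hv, hu⟩

lemma frac_mem (hs : 0 < s) (hv₀ : Good s v₀) (h1 : v₀.2 ≤ 1)
    (hτ : ∀ n, 0 ≤ τ n ∧ τ n ≤ s) (U : Set X) (k : ℕ) : ∀ n, ∀ v ∈ lev s v₀ τ n,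
      0 ≤ frac s v₀ τ k n v U ∧ frac s v₀ τ k n v U ≤ 1 := by
  classical
  have hg := lev_good hs hv₀ h1 hτ
  induction k with
  | zero =>
    intro n v hv
    rw [frac]
    split_ifs <;> norm_num
  | succ k ih =>
    intro n v hv
    rw [frac]
    have hS := sum_ch_pos hs (hτ n).1 (hτ n).2 n (lev s v₀ τ n).card (hg n v hv).1
    have hpos : ∀ u ∈ ch s n (lev s v₀ τ n).card v (τ n), 0 ≤ u.2 ^ (τ n) := by
      intro u hu
      have := (hg _ u (mem_lev_of_ch hv hu)).1.1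
      positivity
    constructor
    · refine div_nonneg (Finset.sum_nonneg fun u hu => ?_) hS.le
      exact mul_nonneg (hpos u hu) (ih (n + 1) u (mem_lev_of_ch hv hu)).1
    · rw [div_le_one hS]
      refine Finset.sum_le_sum fun u hu => ?_
      have := (ih (n + 1) u (mem_lev_of_ch hv hu)).2
      have := hpos u hu
      nlinarith

lemma frac_eq_zero (hs : 0 < s) (hv₀ : Good s v₀) (h1 : v₀.2 ≤ 1)
    (hτ : ∀ n, 0 ≤ τ n ∧ τ n ≤ s) (U : Set X) (k : ℕ) : ∀ n, ∀ v ∈ lev s v₀ τ n,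
      ¬ (bb v ∩ U).Nonempty → frac s v₀ τ k n v U = 0 := by
  classical
  have hg := lev_good hs hv₀ h1 hτ
  induction k with
  | zero =>
    intro n v hv hU
    rw [frac, if_neg hU]
  | succ k ih =>
    intro n v hv hU
    rw [frac, Finset.sum_eq_zero, zero_div]
    intro u hu
    rw [ih (n + 1) u (mem_lev_of_ch hv hu), mul_zero]
    intro h
    exact hU (h.mono (inter_subset_inter_left _
      (bb_subset hs (hτ n).1 (hτ n).2 (hg n v hv).1 hu)))

lemma one_le_sum_frac (hs : 0 < s) (hv₀ : Good s v₀) (h1 : v₀.2 ≤ 1)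
    (hτ : ∀ n, 0 ≤ τ n ∧ τ n ≤ s) {ι : Type*} (I : Finset ι) (U : ι → Set X)
    (hcov : ∀ p ∈ Eset s v₀ τ, ∃ i ∈ I, p ∈ U i) (k : ℕ) : ∀ n, ∀ v ∈ lev s v₀ τ n,
      1 ≤ ∑ i ∈ I, frac s v₀ τ k n v (U i) := by
  classical
  have hg := lev_good hs hv₀ h1 hτ
  induction k with
  | zero =>
    intro n v hv
    obtain ⟨p, hpv, hp⟩ := Eset_inter hs hv₀ h1 hτ hv
    obtain ⟨i, hi, hpi⟩ := hcov p hp
    have h2 : frac s v₀ τ 0 n v (U i) = 1 := by
      rw [frac, if_pos ⟨p, hpv, hpi⟩]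
    rw [← h2]
    exact Finset.single_le_sum (f := fun i => frac s v₀ τ 0 n v (U i))
      (fun j _ => (frac_mem hs hv₀ h1 hτ (U j) 0 n v hv).1) hi
  | succ k ih =>
    intro n v hv
    have hS := sum_ch_pos hs (hτ n).1 (hτ n).2 n (lev s v₀ τ n).card (hg n v hv).1
    simp only [frac]
    rw [← Finset.sum_div, le_div_iff₀ hS, one_mul, Finset.sum_comm]
    refine Finset.sum_le_sum fun u hu => ?_
    rw [← Finset.mul_sum]
    have h3 := ih (n + 1) u (mem_lev_of_ch hv hu)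
    have := (hg _ u (mem_lev_of_ch hv hu)).1.1
    have : 0 ≤ u.2 ^ (τ n) := by positivity
    nlinarith

lemma frac_le (hs : 0 < s) (hv₀ : Good s v₀) (h1 : v₀.2 ≤ 1)
    (hτ : ∀ n, 0 ≤ τ n ∧ τ n ≤ s) {d e : ℝ} (hd : 0 < d) (he : 0 < e) {n₁ : ℕ}
    (hA : ∀ n, n₁ ≤ n → d + 2 * e ≤ τ n ∧ 1 / ((n : ℝ) + 1) ≤ e ∧
      2 ^ (1 + s) * ((1 / 2 : ℝ) ^ n) ^ e ≤ cst s ∧ 2 ^ d * ((1 / 2 : ℝ) ^ n) ^ e ≤ 1)
    {U : Set X} {ρ : ℝ} (hρ : 0 < ρ) (hU : ∀ x ∈ U, ∀ y ∈ U, dist x y ≤ ρ) (k : ℕ) :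
    ∀ n, n₁ ≤ n → ∀ v ∈ lev s v₀ τ n, (1 / 2 : ℝ) ^ (n + k) ≤ ρ →
      frac s v₀ τ k n v U ≤ ρ ^ d * v.2 ^ (-(d + e)) := by
  classical
  have hg := lev_good hs hv₀ h1 hτ
  have hc := cst_pos s
  induction k with
  | zero =>
    intro n hn v hv hρn
    obtain ⟨hgv, hv2⟩ := hg n v hv
    have hv0 := hgv.1
    have hv1 : v.2 ≤ 1 := hv2.trans (pow_le_one₀ (by norm_num) (by norm_num))
    rw [add_zero] at hρn
    refine (frac_mem hs hv₀ h1 hτ U 0 n v hv).2.trans ?_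
    have h2 : v.2 ^ d ≤ ρ ^ d := Real.rpow_le_rpow hv0.le (hv2.trans hρn) hd.le
    calc (1 : ℝ) ≤ v.2 ^ (-e) := Real.one_le_rpow_of_pos_of_le_one_of_nonpos hv0 hv1 (by linarith)
      _ = v.2 ^ d * v.2 ^ (-(d + e)) := by rw [← Real.rpow_add hv0]; congr 1; ring
      _ ≤ _ := by gcongr
  | succ k ih =>
    intro n hn v hv hρn
    obtain ⟨hgv, hv2⟩ := hg n v hv
    have hv0 := hgv.1
    have hv1 : v.2 ≤ 1 := hv2.trans (pow_le_one₀ (by norm_num) (by norm_num))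
    obtain ⟨a1, a2, a3, a4⟩ := hA n hn
    set t := τ n with ht
    set N := (lev s v₀ τ n).card with hN
    obtain ⟨c1, c2, c3, c4, c5⟩ := ch_spec hs (hτ n).1 (hτ n).2 n N hgv
    have hS := sum_ch_pos hs (hτ n).1 (hτ n).2 n N hgv
    have hfr := frac_mem hs hv₀ h1 hτ U (k + 1) n v hv
    have hve : v.2 ^ e ≤ ((1 / 2 : ℝ) ^ n) ^ e := Real.rpow_le_rpow hv0.le hv2 he.le
    set M := (ch s n N v t).filter fun u => (bb u ∩ U).Nonempty with hM
    have hsumM : ∑ u ∈ ch s n N v t, u.2 ^ t * frac s v₀ τ k (n + 1) u U =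
        ∑ u ∈ M, u.2 ^ t * frac s v₀ τ k (n + 1) u U := by
      rw [hM, Finset.sum_filter]
      refine Finset.sum_congr rfl fun u hu => ?_
      split_ifs with h
      · rfl
      · rw [frac_eq_zero hs hv₀ h1 hτ U k (n + 1) u (mem_lev_of_ch hv hu) h, mul_zero]
    rw [frac, ← ht, ← hN, hsumM]
    by_cases hM1 : ∀ u ∈ M, ∀ u' ∈ M, u = u'
    · -- at most one child meets `U`
      rcases M.eq_empty_or_nonempty with hMe | ⟨u, hu⟩
      · rw [hMe, Finset.sum_empty, zero_div]; positivity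
      · have hMu : M = {u} := by
          ext w
          rw [Finset.mem_singleton]
          exact ⟨fun hw => hM1 w hw u hu, fun hw => hw ▸ hu⟩
        have huch : u ∈ ch s n N v t := (Finset.mem_filter.1 hu).1
        have hulev : u ∈ lev s v₀ τ (n + 1) := mem_lev_of_ch hv huch
        have hu0 := (c1 u huch).1.1
        have hih := ih (n + 1) (by omega) u hulev (by rw [show n + 1 + k = n + (k + 1) by ring]; exact hρn)
        rw [hMu, Finset.sum_singleton]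
        have hratio : (u.2 / v.2) ^ (t - d - e) ≤ cst s := by
          have r0 : 0 < u.2 / v.2 := by positivity
          have r1 : u.2 / v.2 ≤ cst s ^ (n + 1) := by
            rw [div_le_iff₀ hv0]
            exact ((c1 u huch).2.1.le).trans (scale_le_three _ _ _ _)
          have r2 : u.2 / v.2 ≤ 1 :=
            r1.trans (pow_le_one₀ hc.le (cst_le_one hs.le))
          calc (u.2 / v.2) ^ (t - d - e) ≤ (u.2 / v.2) ^ (1 / ((n : ℝ) + 1)) :=
                Real.rpow_le_rpow_of_exponent_ge r0 r2 (by linarith)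
            _ ≤ (cst s ^ (n + 1)) ^ (1 / ((n : ℝ) + 1)) :=
                Real.rpow_le_rpow r0.le r1 (by positivity)
            _ = cst s := by
                rw [← Real.rpow_natCast, ← Real.rpow_mul hc.le]
                push_cast
                rw [mul_one_div_cancel (by positivity), Real.rpow_one]
        rw [div_le_iff₀ hS]
        have e1 : u.2 ^ t * u.2 ^ (-(d + e)) = (u.2 / v.2) ^ (t - d - e) * v.2 ^ (t - d - e) := by
          rw [← Real.rpow_add hu0, Real.div_rpow hu0.le hv0.le, div_mul_cancel₀]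
          · congr 1; ring
          · positivity
        have e2 : v.2 ^ (t - d - e) = v.2 ^ (-(d + e)) * v.2 ^ t := by
          rw [← Real.rpow_add hv0]; congr 1; ring
        calc u.2 ^ t * frac s v₀ τ k (n + 1) u U ≤ u.2 ^ t * (ρ ^ d * u.2 ^ (-(d + e))) := by
              gcongr
          _ = ρ ^ d * ((u.2 / v.2) ^ (t - d - e) * v.2 ^ (t - d - e)) := by rw [← e1]; ring
          _ ≤ ρ ^ d * (cst s * v.2 ^ (t - d - e)) := by gcongr
          _ = ρ ^ d * v.2 ^ (-(d + e)) * (cst s * v.2 ^ t) := by rw [e2]; ring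
          _ ≤ ρ ^ d * v.2 ^ (-(d + e)) * ∑ u ∈ ch s n N v t, u.2 ^ t := by gcongr
    · -- at least two children meet `U`
      push Not at hM1
      obtain ⟨w, hw, w', hw', hww'⟩ := hM1
      have hsmall : ∀ u ∈ M, 2 * u.2 ≤ ρ := by
        intro u hu
        obtain ⟨u', hu', hne⟩ : ∃ u' ∈ M, u ≠ u' := by
          by_cases h : u = w
          · exact ⟨w', hw', by rw [h]; exact hww'⟩
          · exact ⟨w, hw, h⟩
        obtain ⟨huch, p, hp1, hp2⟩ := Finset.mem_filter.1 hu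
        obtain ⟨huch', p', hp1', hp2'⟩ := Finset.mem_filter.1 hu'
        have hd1 := c2 u huch u' huch' hne
        have hd2 := c2 u' huch' u huch hne.symm
        rw [dist_comm] at hd2
        have hd3 := hU p hp2 p' hp2'
        have hd4 : dist p u.1 ≤ 2 * u.2 := hp1
        have hd5 : dist p' u'.1 ≤ 2 * u'.2 := hp1'
        have hd6 := dist_triangle4 u.1 p p' u'.1
        rw [dist_comm u.1 p] at hd6
        linarith
      obtain ⟨hwch, z, hz1, hz2⟩ := Finset.mem_filter.1 hw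
      by_cases hbig : 2 * ρ ≤ v.2
      · have hMmass : ∑ u ∈ M, u.2 ^ t ≤ 2 * (2 * ρ) ^ t := by
          refine le_trans ?_ (c5 z (2 * ρ) (by positivity) hbig)
          unfold mass
          refine Finset.sum_le_sum_of_subset_of_nonneg ?_ ?_
          · intro u hu
            obtain ⟨huch, p, hp1, hp2⟩ := Finset.mem_filter.1 hu
            rw [Finset.mem_filter]
            have h5 := hsmall u hu
            have h6 : dist p u.1 ≤ 2 * u.2 := hp1
            have h7 := hU p hp2 z hz2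
            have h8 := dist_triangle u.1 p z
            rw [dist_comm u.1 p] at h8
            have hu0 := (c1 u huch).1.1
            exact ⟨huch, by linarith, by linarith⟩
          · intro u hu _
            have hu0 := (c1 u (Finset.mem_filter.1 hu).1).1.1
            positivity
        have h9 : ∑ u ∈ M, u.2 ^ t * frac s v₀ τ k (n + 1) u U ≤ 2 * (2 * ρ) ^ t := by
          refine le_trans (Finset.sum_le_sum fun u hu => ?_) hMmass
          have huch := (Finset.mem_filter.1 hu).1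
          have hu0 := (c1 u huch).1.1
          have h10 := (frac_mem hs hv₀ h1 hτ U k (n + 1) u (mem_lev_of_ch hv huch)).2
          have : 0 ≤ u.2 ^ t := by positivity
          nlinarith
        rw [div_le_iff₀ hS]
        have htd : 0 ≤ t - d := by linarith
        have e1 : (2 * ρ) ^ t = 2 ^ t * (ρ ^ d * ρ ^ (t - d)) := by
          rw [Real.mul_rpow (by norm_num) hρ.le, ← Real.rpow_add hρ]; congr 2; ring
        have e2 : ρ ^ (t - d) ≤ v.2 ^ (t - d) := Real.rpow_le_rpow hρ.le (by linarith) htd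
        have e3 : v.2 ^ (t - d) = v.2 ^ (-(d + e)) * v.2 ^ t * v.2 ^ e := by
          rw [← Real.rpow_add hv0, ← Real.rpow_add hv0]; congr 1; ring
        have e4 : (2 : ℝ) ^ (1 + t) * v.2 ^ e ≤ cst s := by
          have : (2 : ℝ) ^ (1 + t) ≤ 2 ^ (1 + s) :=
            Real.rpow_le_rpow_of_exponent_le (by norm_num) (by have := (hτ n).2; linarith)
          calc (2 : ℝ) ^ (1 + t) * v.2 ^ e ≤ 2 ^ (1 + s) * ((1 / 2 : ℝ) ^ n) ^ e := by gcongr
            _ ≤ _ := a3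
        calc ∑ u ∈ M, u.2 ^ t * frac s v₀ τ k (n + 1) u U ≤ 2 * (2 * ρ) ^ t := h9
          _ = 2 * (2 ^ t * (ρ ^ d * ρ ^ (t - d))) := by rw [e1]
          _ ≤ 2 * (2 ^ t * (ρ ^ d * v.2 ^ (t - d))) := by gcongr
          _ = ρ ^ d * v.2 ^ (-(d + e)) * v.2 ^ t * (2 ^ (1 + t) * v.2 ^ e) := by
              rw [e3, Real.rpow_add (by norm_num : (0 : ℝ) < 2), Real.rpow_one]; ring
          _ ≤ ρ ^ d * v.2 ^ (-(d + e)) * v.2 ^ t * cst s := by gcongr
          _ = ρ ^ d * v.2 ^ (-(d + e)) * (cst s * v.2 ^ t) := by ring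
          _ ≤ ρ ^ d * v.2 ^ (-(d + e)) * ∑ u ∈ ch s n N v t, u.2 ^ t := by gcongr
      · rw [not_le] at hbig
        have hle1 : (∑ u ∈ M, u.2 ^ t * frac s v₀ τ k (n + 1) u U) /
            ∑ u ∈ ch s n N v t, u.2 ^ t ≤ 1 := by
          have := hfr.2
          rw [frac, ← ht, ← hN, hsumM] at this
          exact this
        refine hle1.trans ?_
        have e1 : v.2 ^ d ≤ 2 ^ d * ρ ^ d := by
          rw [← Real.mul_rpow (by norm_num) hρ.le]
          exact Real.rpow_le_rpow hv0.le hbig.le hd.le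
        have e2 : v.2 ^ (-(d + e)) = v.2 ^ (-d) * v.2 ^ (-e) := by
          rw [← Real.rpow_add hv0]; congr 1; ring
        have e3 : v.2 ^ d * v.2 ^ (-d) = 1 := by
          rw [← Real.rpow_add hv0, add_neg_cancel, Real.rpow_zero]
        have e4 : v.2 ^ e * v.2 ^ (-e) = 1 := by
          rw [← Real.rpow_add hv0, add_neg_cancel, Real.rpow_zero]
        have e5 : 2 ^ d * v.2 ^ e ≤ 1 := by
          refine le_trans ?_ a4
          gcongr
        have p1 : 0 < v.2 ^ (-d) := by positivity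
        have p2 : 0 < v.2 ^ (-e) := by positivity
        have p3 : 0 < v.2 ^ e := by positivity
        have p4 : (0 : ℝ) < 2 ^ d := by positivity
        have p5 : 0 < ρ ^ d := by positivity
        calc (1 : ℝ) = (v.2 ^ d * v.2 ^ (-d)) * (v.2 ^ e * v.2 ^ (-e)) := by rw [e3, e4, one_mul]
          _ ≤ ((2 ^ d * ρ ^ d) * v.2 ^ (-d)) * (v.2 ^ e * v.2 ^ (-e)) := by gcongr
          _ = (2 ^ d * v.2 ^ e) * (ρ ^ d * (v.2 ^ (-d) * v.2 ^ (-e))) := by ring
          _ ≤ 1 * (ρ ^ d * (v.2 ^ (-d) * v.2 ^ (-e))) := by gcongr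
          _ = ρ ^ d * v.2 ^ (-(d + e)) := by rw [one_mul, e2]

lemma le_dimH_of_lt (hs : 0 < s) (hv₀ : Good s v₀) (h1 : v₀.2 ≤ 1)
    (hτ : ∀ n, 0 ≤ τ n ∧ τ n ≤ s) {a : ℝ} (ha : Tendsto τ atTop (𝓝 a)) {d : ℝ≥0}
    (hd0 : 0 < d) (hd : (d : ℝ) < a) : (d : ℝ≥0∞) ≤ dimH (Eset s v₀ τ) := by
  have hg := lev_good hs hv₀ h1 hτ
  have hc := cst_pos s
  have hd0' : (0 : ℝ) < d := by exact_mod_cast hd0
  set e : ℝ := (a - d) / 4 with he
  have he0 : 0 < e := by rw [he]; linarith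
  have hhalf : Tendsto (fun n : ℕ => ((1 / 2 : ℝ) ^ n) ^ e) atTop (𝓝 0) := by
    have h2 : Tendsto (fun n : ℕ => (1 / 2 : ℝ) ^ n) atTop (𝓝 0) :=
      tendsto_pow_atTop_nhds_zero_of_lt_one (by norm_num) (by norm_num)
    have := h2.rpow_const (p := e) (Or.inr he0.le)
    rwa [Real.zero_rpow he0.ne'] at this
  have hev1 : ∀ᶠ n in atTop, d + 2 * e < τ n := ha.eventually_const_lt (by rw [he]; linarith)
  have hev2 : ∀ᶠ n : ℕ in atTop, 1 / ((n : ℝ) + 1) < e :=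
    tendsto_one_div_add_atTop_nhds_zero_nat.eventually_lt_const he0
  have hev3 : ∀ᶠ n : ℕ in atTop, 2 ^ (1 + s) * ((1 / 2 : ℝ) ^ n) ^ e < cst s := by
    have := hhalf.const_mul ((2 : ℝ) ^ (1 + s))
    rw [mul_zero] at this
    exact this.eventually_lt_const hc
  have hev4 : ∀ᶠ n : ℕ in atTop, (2 : ℝ) ^ (d : ℝ) * ((1 / 2 : ℝ) ^ n) ^ e < 1 := by
    have := hhalf.const_mul ((2 : ℝ) ^ (d : ℝ))
    rw [mul_zero] at this
    exact this.eventually_lt_const one_pos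
  obtain ⟨n₁, hn₁⟩ := eventually_atTop.1 (hev1.and (hev2.and (hev3.and hev4)))
  have hA : ∀ n, n₁ ≤ n → (d : ℝ) + 2 * e ≤ τ n ∧ 1 / ((n : ℝ) + 1) ≤ e ∧
      2 ^ (1 + s) * ((1 / 2 : ℝ) ^ n) ^ e ≤ cst s ∧
      (2 : ℝ) ^ (d : ℝ) * ((1 / 2 : ℝ) ^ n) ^ e ≤ 1 := by
    intro n hn
    obtain ⟨b1, b2, b3, b4⟩ := hn₁ n hn
    exact ⟨b1.le, b2.le, b3.le, b4.le⟩
  obtain ⟨v, hv, -⟩ := exists_desc (n := 0) (v := v₀) hs hv₀ h1 hτ (by rw [lev_zero]; simp) n₁
  rw [zero_add] at hv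
  obtain ⟨hgv, hv2⟩ := hg n₁ v hv
  have hv0 := hgv.1
  refine le_dimH_of_cnt_ne_zero fun h0 => ?_
  set κ : ℝ := v.2 ^ ((d : ℝ) + e) with hκ
  have hκ0 : 0 < κ := by rw [hκ]; positivity
  have h2d : (0 : ℝ) < 2 ^ (d : ℝ) := by positivity
  obtain ⟨x, r, -, hr, hcov, hsum⟩ := exists_ball_cover hd0' (E := Eset s v₀ τ)
    (Eset_nonempty hs hv₀ h1 hτ) (C := ENNReal.ofReal (κ / 2 ^ (d : ℝ)))
    (by rw [h0]; exact ENNReal.ofReal_pos.2 (by positivity))
  obtain ⟨I, hI⟩ := (isClosed_Eset s v₀ τ).isCompact.elim_finite_subcover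
    (fun i => ball (x i) (r i)) (fun i => isOpen_ball) hcov
  -- a level deep enough
  have hk : ∃ k : ℕ, ∀ i ∈ I, (1 / 2 : ℝ) ^ (n₁ + k) ≤ 2 * r i := by
    have h2 : Tendsto (fun k : ℕ => (1 / 2 : ℝ) ^ (n₁ + k)) atTop (𝓝 0) := by
      have h3 : Tendsto (fun n : ℕ => (1 / 2 : ℝ) ^ n) atTop (𝓝 0) :=
        tendsto_pow_atTop_nhds_zero_of_lt_one (by norm_num) (by norm_num)
      have h4 := (tendsto_add_atTop_iff_nat n₁).2 h3
      refine h4.congr fun k => ?_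
      rw [add_comm]
    have h3 : ∀ᶠ k : ℕ in atTop, ∀ i ∈ I, (1 / 2 : ℝ) ^ (n₁ + k) < 2 * r i := by
      rw [Finset.eventually_all]
      intro i _
      exact h2.eventually_lt_const (by have := hr i; positivity)
    obtain ⟨k, hk⟩ := h3.exists
    exact ⟨k, fun i hi => (hk i hi).le⟩
  obtain ⟨k, hk⟩ := hk
  have hone := one_le_sum_frac hs hv₀ h1 hτ I (fun i => ball (x i) (r i)) (fun p hp => by
    have := hI hp
    simpa only [mem_iUnion, exists_prop] using this) k n₁ v hv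
  have hle : ∀ i ∈ I, frac s v₀ τ k n₁ v (ball (x i) (r i)) ≤
      (2 * r i) ^ (d : ℝ) * v.2 ^ (-((d : ℝ) + e)) := by
    intro i hi
    refine frac_le hs hv₀ h1 hτ hd0' he0 hA (by have := hr i; positivity) ?_ k n₁ le_rfl v hv
      (hk i hi)
    intro p hp q hq
    rw [mem_ball] at hp hq
    linarith [dist_triangle_right p q (x i)]
  have hsum2 : ∑ i ∈ I, r i ^ (d : ℝ) < κ / 2 ^ (d : ℝ) := by
    have h5 : ENNReal.ofReal (∑ i ∈ I, r i ^ (d : ℝ)) < ENNReal.ofReal (κ / 2 ^ (d : ℝ)) := by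
      rw [ENNReal.ofReal_sum_of_nonneg fun i _ => by have := hr i; positivity]
      exact (ENNReal.sum_le_tsum I).trans_lt hsum
    exact (ENNReal.ofReal_lt_ofReal_iff (by positivity)).1 h5
  have h6 : (1 : ℝ) ≤ 2 ^ (d : ℝ) * (∑ i ∈ I, r i ^ (d : ℝ)) * κ⁻¹ := by
    calc (1 : ℝ) ≤ ∑ i ∈ I, frac s v₀ τ k n₁ v (ball (x i) (r i)) := hone
      _ ≤ ∑ i ∈ I, (2 * r i) ^ (d : ℝ) * v.2 ^ (-((d : ℝ) + e)) := Finset.sum_le_sum hle
      _ = 2 ^ (d : ℝ) * (∑ i ∈ I, r i ^ (d : ℝ)) * κ⁻¹ := by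
          rw [Finset.mul_sum, Finset.sum_mul]
          refine Finset.sum_congr rfl fun i _ => ?_
          rw [Real.mul_rpow (by norm_num) (hr i).le, hκ, Real.rpow_neg hv0.le]
  have h7 : 2 ^ (d : ℝ) * (∑ i ∈ I, r i ^ (d : ℝ)) * κ⁻¹ < 1 := by
    calc 2 ^ (d : ℝ) * (∑ i ∈ I, r i ^ (d : ℝ)) * κ⁻¹
        < 2 ^ (d : ℝ) * (κ / 2 ^ (d : ℝ)) * κ⁻¹ := by gcongr
      _ = 1 := by field_simp
  linarith

/-- The parametrised construction inside an enlarged good ball. -/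
theorem tree (hs : 0 < s) (hv₀ : Good s v₀) (h1 : v₀.2 ≤ 1) :
    ∃ E : (ℕ → Icc (0 : ℝ) s) → NonemptyCompacts X,
      (∀ n τ τ', (∀ m < n, τ m = τ' m) → dist (E τ) (E τ') ≤ 4 * (1 / 2 : ℝ) ^ n) ∧
      (∀ τ, (E τ : Set X) ⊆ closedBall v₀.1 (2 * v₀.2)) ∧
      (∀ τ (a : ℝ), Tendsto (fun n => (τ n : ℝ)) atTop (𝓝 a) →
        dimH (E τ : Set X) = ENNReal.ofReal a) := by
  have hτ : ∀ τ : ℕ → Icc (0 : ℝ) s, ∀ n, 0 ≤ (τ n : ℝ) ∧ (τ n : ℝ) ≤ s := fun τ n => (τ n).2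
  refine ⟨fun τ => ⟨⟨Eset s v₀ (fun n => (τ n : ℝ)), (isClosed_Eset _ _ _).isCompact⟩,
    Eset_nonempty hs hv₀ h1 (hτ τ)⟩, ?_, ?_, ?_⟩
  · intro n τ τ' h
    rw [NonemptyCompacts.dist_eq]
    refine hausdorffDist_le_of_mem_dist (by positivity) ?_ ?_
    · exact Eset_close hs hv₀ h1 (hτ τ) (hτ τ') n (fun m hm => by rw [h m hm])
    · exact Eset_close hs hv₀ h1 (hτ τ') (hτ τ) n (fun m hm => by rw [h m hm])
  · intro τ
    exact Eset_subset _ _ _
  · intro τ a ha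
    have ha0 : 0 ≤ a := ge_of_tendsto' ha fun n => (hτ τ n).1
    apply le_antisymm
    · refine le_of_forall_gt_imp_ge_of_dense fun b hb => ?_
      rcases eq_or_ne b ∞ with rfl | hb'
      · exact le_top
      · lift b to ℝ≥0 using hb'
        refine dimH_le_of_lt hs hv₀ h1 (hτ τ) ha ?_
        rw [ENNReal.ofReal, ENNReal.coe_lt_coe] at hb
        have := (Real.toNNReal_lt_iff_lt_coe ha0).1 hb
        exact this
    · refine le_of_forall_lt_imp_le_of_dense fun b hb => ?_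
      have hb' : b ≠ ∞ := (hb.trans_le le_top).ne
      lift b to ℝ≥0 using hb'
      rcases eq_or_lt_of_le (zero_le (a := b)) with h0 | h0
      · rw [← h0]; simp
      · refine le_dimH_of_lt hs hv₀ h1 (hτ τ) ha h0 ?_
        rw [ENNReal.ofReal, ENNReal.coe_lt_coe, Real.lt_toNNReal_iff_coe_lt] at hb
        exact hb

end Pool.Agent.MP_65ee2d_an
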