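import Mathlib
import Pool.Agent.MP_65ee2d_an.Dim

set_option autoImplicit false

open MeasureTheory Set Metric TopologicalSpace Filter
open scoped ENNReal NNReal Topology

namespace Pool.Agent.MP_65ee2d_an

/-! ### Decoding -/

open Classical in
/-- Finite stage decoding of a point of the Cantor space into a point of the Baire space. -/
noncomputable def dec (n : ℕ) (x : ℕ → ℕ → Bool) (j : ℕ) : ℕ :=
  if h : j ≤ n ∧ ∃ k, k ≤ n ∧ x j k = true then Nat.find h.2 else 0

open Classical in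
/-- The limit decoding. -/
noncomputable def decLim (x : ℕ → ℕ → Bool) (j : ℕ) : ℕ :=
  if h : ∃ k, x j k = true then Nat.find h else 0

lemma tendsto_dec (x : ℕ → ℕ → Bool) : Tendsto (fun n => dec n x) atTop (𝓝 (decLim x)) := by
  classical
  rw [tendsto_pi_nhds]
  intro j
  refine tendsto_const_nhds.congr' ?_
  by_cases h : ∃ k, x j k = true
  · have hk := Nat.find_spec h
    filter_upwards [eventually_ge_atTop (j + Nat.find h)] with n hn
    have h2 : j ≤ n ∧ ∃ k, k ≤ n ∧ x j k = true := ⟨by omega, Nat.find h, by omega, hk⟩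
    rw [decLim, dec, dif_pos h, dif_pos h2]
    apply le_antisymm
    · exact Nat.find_min' h (Nat.find_spec h2.2).2
    · exact Nat.find_min' h2.2 ⟨by omega, hk⟩
  · refine Eventually.of_forall fun n => ?_
    show decLim x j = dec n x j
    rw [decLim, dec, dif_neg h, dif_neg]
    rintro ⟨-, k, -, hk⟩
    exact h ⟨k, hk⟩

lemma decLim_surjective : Function.Surjective decLim := by
  classical
  intro y
  refine ⟨fun j k => decide (k = y j), ?_⟩
  funext j
  have h : ∃ k, decide (k = y j) = true := ⟨y j, by simp⟩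
  have h2 : decLim (fun j k => decide (k = y j)) j = Nat.find h := by
    rw [decLim, dif_pos h]
  rw [h2]
  have := Nat.find_spec h
  simpa using this

lemma dec_congr {n N : ℕ} (hn : n < N) {x x' : ℕ → ℕ → Bool}
    (h : ∀ j < N, ∀ k < N, x j k = x' j k) : dec n x = dec n x' := by
  classical
  funext j
  by_cases hj : j ≤ n
  · have hiff : ∀ k, (k ≤ n ∧ x j k = true) ↔ (k ≤ n ∧ x' j k = true) := by
      intro k
      constructor
      · rintro ⟨hk, hx⟩; exact ⟨hk, by rw [← h j (by omega) k (by omega)]; exact hx⟩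
      · rintro ⟨hk, hx⟩; exact ⟨hk, by rw [h j (by omega) k (by omega)]; exact hx⟩
    by_cases h1 : ∃ k, k ≤ n ∧ x j k = true
    · have h2 : ∃ k, k ≤ n ∧ x' j k = true := by
        obtain ⟨k, hk⟩ := h1; exact ⟨k, (hiff k).1 hk⟩
      rw [dec, dec, dif_pos ⟨hj, h1⟩, dif_pos ⟨hj, h2⟩]
      apply le_antisymm
      · exact Nat.find_min' _ ((hiff _).2 (Nat.find_spec h2))
      · exact Nat.find_min' _ ((hiff _).1 (Nat.find_spec h1))
    · have h2 : ¬ ∃ k, k ≤ n ∧ x' j k = true := by
        rintro ⟨k, hk⟩; exact h1 ⟨k, (hiff k).2 hk⟩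
      rw [dec, dec, dif_neg (fun h => h1 h.2), dif_neg (fun h => h2 h.2)]
  · rw [dec, dec, dif_neg (fun h => hj h.1), dif_neg (fun h => hj h.1)]

/-! ### The family in a good ball -/

theorem family {X : Type*} [MetricSpace X] [CompactSpace X] {s : ℝ} (hs : 0 < s) {v₀ : X × ℝ}
    (hv₀ : Good s v₀) (h1 : v₀.2 ≤ 1) {A : Set ℝ≥0∞} (hA : AnalyticSet A) (hne : A.Nonempty)
    (hAs : A ⊆ Iic (ENNReal.ofReal s)) :
    ∃ G : (ℕ → ℕ → Bool) → NonemptyCompacts X, Continuous G ∧
      (∀ x, (G x : Set X) ⊆ closedBall v₀.1 (2 * v₀.2)) ∧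
      range (fun x => dimH (G x : Set X)) = A := by
  rw [AnalyticSet] at hA
  obtain ⟨f, hf, hfA⟩ := hA.resolve_left hne.ne_empty
  obtain ⟨E, hE1, hE2, hE3⟩ := tree hs hv₀ h1
  have hfs : ∀ y, f y ≤ ENNReal.ofReal s := fun y => hAs (hfA ▸ mem_range_self y)
  have hfin : ∀ y, f y ≠ ∞ := fun y => ((hfs y).trans_lt ENNReal.ofReal_lt_top).ne
  have hmem : ∀ y, (f y).toReal ∈ Icc (0 : ℝ) s := fun y =>
    ⟨ENNReal.toReal_nonneg, ENNReal.toReal_le_of_le_ofReal hs.le (hfs y)⟩
  let τ : (ℕ → ℕ → Bool) → ℕ → Icc (0 : ℝ) s := fun x n => ⟨(f (dec n x)).toReal, hmem _⟩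
  have hlim : ∀ x, Tendsto (fun n => ((τ x n : Icc (0 : ℝ) s) : ℝ)) atTop
      (𝓝 (f (decLim x)).toReal) := by
    intro x
    have h2 : Tendsto (fun n => f (dec n x)) atTop (𝓝 (f (decLim x))) :=
      (hf.tendsto _).comp (tendsto_dec x)
    exact (ENNReal.tendsto_toReal (hfin _)).comp h2
  have hdim : ∀ x, dimH (E (τ x) : Set X) = f (decLim x) := by
    intro x
    rw [hE3 (τ x) _ (hlim x), ENNReal.ofReal_toReal (hfin _)]
  refine ⟨fun x => E (τ x), ?_, fun x => hE2 _, ?_⟩
  · rw [Metric.continuous_iff']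
    intro x ε hε
    obtain ⟨N, hN⟩ : ∃ N : ℕ, 4 * (1 / 2 : ℝ) ^ N < ε := by
      have h3 : Tendsto (fun n : ℕ => 4 * (1 / 2 : ℝ) ^ n) atTop (𝓝 (4 * 0)) :=
        (tendsto_pow_atTop_nhds_zero_of_lt_one (by norm_num) (by norm_num)).const_mul 4
      rw [mul_zero] at h3
      exact (h3.eventually_lt_const hε).exists
    have hopen : ∀ᶠ x' : ℕ → ℕ → Bool in 𝓝 x, ∀ j ∈ Finset.range N, ∀ k ∈ Finset.range N,
        x' j k = x j k := by
      rw [Finset.eventually_all]
      intro j _
      rw [Finset.eventually_all]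
      intro k _
      have hcont : Continuous fun x' : ℕ → ℕ → Bool => x' j k :=
        (continuous_apply k).comp (continuous_apply j)
      exact hcont.continuousAt.eventually (p := fun b => b = x j k)
        (by rw [nhds_discrete]; simp)
    filter_upwards [hopen] with x' hx'
    refine lt_of_le_of_lt (hE1 N (τ x') (τ x) ?_) hN
    intro m hm
    have : dec m x' = dec m x := dec_congr hm fun j hj k hk =>
      hx' j (Finset.mem_range.2 hj) k (Finset.mem_range.2 hk)
    simp only [τ, this]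
  · simp only [hdim]
    rw [← hfA]
    exact decLim_surjective.range_comp f

/-! ### Topological lemma -/

lemma isCompact_insert_iUnion {Y : Type*} [TopologicalSpace Y] {C : ℕ → Set Y}
    (hC : ∀ n, IsCompact (C n)) {q : Y} (hq : ∀ U ∈ 𝓝 q, ∀ᶠ n in atTop, C n ⊆ U) :
    IsCompact (insert q (⋃ n, C n)) := by
  intro f hf hfS
  by_cases hcl : ClusterPt q f
  · exact ⟨q, mem_insert _ _, hcl⟩
  · rw [ClusterPt, not_neBot, Filter.inf_eq_bot_iff] at hcl
    obtain ⟨U, hU, V, hV, hUV⟩ := hcl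
    obtain ⟨N, hN⟩ := eventually_atTop.1 (hq U hU)
    have hcomp : IsCompact (⋃ n ∈ Finset.range N, C n) :=
      (Finset.range N).isCompact_biUnion fun n _ => hC n
    have hle : f ≤ 𝓟 (⋃ n ∈ Finset.range N, C n) := by
      rw [le_principal_iff]
      filter_upwards [hV, le_principal_iff.1 hfS] with y hyV hyS
      have hyU : y ∉ U := fun h => by
        have : y ∈ U ∩ V := ⟨h, hyV⟩
        rw [hUV] at this
        exact this
      rcases hyS with rfl | hyS
      · exact absurd (mem_of_mem_nhds hU) hyU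
      · obtain ⟨n, hn⟩ := mem_iUnion.1 hyS
        have hnN : n < N := by
          by_contra hcon
          exact hyU (hN n (not_lt.1 hcon) hn)
        exact mem_biUnion (Finset.mem_coe.2 (Finset.mem_range.2 hnN)) hn
    obtain ⟨y, hy, hyc⟩ := hcomp hle
    refine ⟨y, ?_, hyc⟩
    simp only [mem_iUnion, exists_prop] at hy
    obtain ⟨n, -, hn⟩ := hy
    exact mem_insert_of_mem _ (mem_iUnion.2 ⟨n, hn⟩)

/-! ### Localisation -/

variable {X : Type*} [MetricSpace X] [CompactSpace X]

lemma exists_root {s : ℝ≥0} (hs : 0 < s) {p : X} {ε : ℝ} (hε : 0 < ε)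
    (h : (s : ℝ≥0∞) < dimH (closedBall p ε)) :
    ∃ v : X × ℝ, Good (s : ℝ) v ∧ v.2 ≤ ε ∧ dist v.1 p ≤ ε := by
  have hs' : (0 : ℝ) < s := by exact_mod_cast hs
  have h1 := cnt_pos_of_lt_dimH hs h
  have h2 := bad_null (X := X) hs' hε
  obtain ⟨x, hx, hxB⟩ : ∃ x ∈ closedBall p ε, x ∉ {x : X | ∀ ρ, 0 < ρ → ρ < ε →
      cnt X s (closedBall x ρ) < ENNReal.ofReal (ρ ^ (s : ℝ) / 2)} := by
    by_contra hcon
    push Not at hcon
    exact h1 (le_antisymm ((measure_mono hcon).trans_eq h2) zero_le)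
  simp only [mem_ofPred_eq, not_forall, not_lt] at hxB
  obtain ⟨ρ, h0, h3, h4⟩ := hxB
  exact ⟨(x, ρ), ⟨h0, h4⟩, h3.le, hx⟩

lemma exists_full_point (h : 0 < dimH (univ : Set X)) :
    ∃ p : X, ∀ ε, 0 < ε → dimH (closedBall p ε) = dimH (univ : Set X) := by
  by_contra hcon
  push Not at hcon
  choose ε hε hne using hcon
  have hlt : ∀ p, dimH (closedBall p (ε p)) < dimH (univ : Set X) := fun p =>
    lt_of_le_of_ne (dimH_mono (subset_univ _)) (hne p)
  obtain ⟨t, ht⟩ := isCompact_univ.elim_finite_subcover (fun p : X => ball p (ε p))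
    (fun p => isOpen_ball) (fun p _ => mem_iUnion.2 ⟨p, mem_ball_self (hε p)⟩)
  have h1 : dimH (univ : Set X) ≤ dimH (⋃ p ∈ (t : Set X), closedBall p (ε p)) := by
    refine dimH_mono fun x hx => ?_
    have := ht hx
    simp only [mem_iUnion, exists_prop] at this ⊢
    obtain ⟨p, hp, hxp⟩ := this
    exact ⟨p, hp, ball_subset_closedBall hxp⟩
  rw [dimH_bUnion t.countable_toSet] at h1
  have h2 : ⨆ p ∈ (t : Set X), dimH (closedBall p (ε p)) < dimH (univ : Set X) := by
    have : ⨆ p ∈ (t : Set X), dimH (closedBall p (ε p)) =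
        t.sup fun p => dimH (closedBall p (ε p)) := by
      rw [Finset.sup_eq_iSup]; rfl
    rw [this, Finset.sup_lt_iff (by simpa using h)]
    exact fun p _ => hlt p
  exact absurd h1 (not_le.2 h2)

/-- Main theorem. -/
theorem main [Nonempty X] (A : Set ℝ≥0∞) (hA : AnalyticSet A) (hAD : A ⊆ Iic (dimH (univ : Set X))) :
    ∃ 𝒞 : Set (NonemptyCompacts X), IsCompact 𝒞 ∧
      (fun C : NonemptyCompacts X => dimH (C : Set X)) '' 𝒞 = A := by
  classical
  set D := dimH (univ : Set X) with hD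
  -- the whole space realises the value `D`
  set C₃ : Set (NonemptyCompacts X) := if D ∈ A then {⊤} else ∅ with hC₃
  have hC₃c : IsCompact C₃ := by
    rw [hC₃]; split_ifs
    · exact isCompact_singleton
    · exact isCompact_empty
  have hC₃i : (fun C : NonemptyCompacts X => dimH (C : Set X)) '' C₃ = A ∩ {D} := by
    rw [hC₃]
    split_ifs with h
    · rw [image_singleton, NonemptyCompacts.coe_top]
      ext a
      constructor
      · intro ha; rw [mem_singleton_iff] at ha; exact ⟨by rw [ha]; exact h, ha⟩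
      · exact fun ha => ha.2
    · rw [image_empty]
      ext a
      simp only [mem_empty_iff_false, false_iff]
      rintro ⟨h1, h2⟩
      rw [mem_singleton_iff] at h2
      exact h (h2 ▸ h1)
  by_cases hlow : ∃ a ∈ A, a < D
  swap
  · refine ⟨C₃, hC₃c, ?_⟩
    rw [hC₃i]
    ext a
    constructor
    · exact fun h => h.1
    · intro ha
      refine ⟨ha, ?_⟩
      push Not at hlow
      exact le_antisymm (hAD ha) (hlow a ha)
  obtain ⟨a₀, ha₀, ha₀D⟩ := hlow
  have hD0 : 0 < D := lt_of_le_of_lt zero_le ha₀D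
  obtain ⟨p, hp⟩ := exists_full_point (X := X) hD0
  obtain ⟨b, -, hb, hbD⟩ := exists_seq_strictMono_tendsto' ha₀D
  -- analytic pieces
  have hpiece : ∀ c : ℝ≥0∞, AnalyticSet (A ∩ Iic c) := by
    intro c
    have hA' := hA
    rw [AnalyticSet] at hA'
    rcases hA' with h | ⟨f, hf, hfA⟩
    · rw [h, empty_inter]; exact analyticSet_empty
    · have h1 : A ∩ Iic c = f '' (f ⁻¹' Iic c) := by
        rw [image_preimage_eq_inter_range, hfA, inter_comm]
      rw [h1]
      exact ((isClosed_Iic.preimage hf).analyticSet).image_of_continuous hf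
  -- construction of the local families
  have hloc : ∀ (c : ℝ≥0∞), c < D → a₀ ≤ c → ∀ ε : ℝ, 0 < ε →
      ∃ G : (ℕ → ℕ → Bool) → NonemptyCompacts X, Continuous G ∧
        (∀ x, ∀ y ∈ (G x : Set X), dist y p ≤ 3 * ε) ∧
        range (fun x => dimH (G x : Set X)) = A ∩ Iic c := by
    intro c hc hac ε hε
    obtain ⟨s, hs1, hs2⟩ := ENNReal.lt_iff_exists_nnreal_btwn.1 hc
    have hs0 : 0 < s := by
      have : (0 : ℝ≥0∞) < s := lt_of_le_of_lt zero_le hs1
      exact_mod_cast this
    have hε' : 0 < min ε 1 := lt_min hε one_pos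
    obtain ⟨v, hv, hv2, hv3⟩ := exists_root hs0 hε' (p := p) (by rw [hp _ hε']; exact hs2)
    obtain ⟨G, hG1, hG2, hG3⟩ := family (by exact_mod_cast hs0) hv (hv2.trans (min_le_right _ _))
      (hpiece c) ⟨a₀, ha₀, hac⟩ (by
        rintro a ⟨-, ha⟩
        rw [mem_Iic, ENNReal.ofReal_coe_nnreal]
        exact (le_trans ha hs1.le))
    refine ⟨G, hG1, fun x y hy => ?_, hG3⟩
    have h1 : dist y v.1 ≤ 2 * v.2 := hG2 x hy
    have h2 := min_le_left ε 1
    linarith [dist_triangle y v.1 p]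
  obtain ⟨G', hG'1, -, hG'3⟩ := hloc a₀ ha₀D le_rfl 1 one_pos
  have hGn : ∀ n : ℕ, ∃ G : (ℕ → ℕ → Bool) → NonemptyCompacts X, Continuous G ∧
        (∀ x, ∀ y ∈ (G x : Set X), dist y p ≤ 3 * (1 / 2 : ℝ) ^ n) ∧
        range (fun x => dimH (G x : Set X)) = A ∩ Iic (b n) :=
    fun n => hloc (b n) (hb n).2 (hb n).1.le _ (by positivity)
  choose G hGc hGp hGr using hGn
  obtain ⟨x₀, hx₀⟩ : ∃ x, dimH (G' x : Set X) = a₀ := by
    have : a₀ ∈ range (fun x => dimH (G' x : Set X)) := by rw [hG'3]; exact ⟨ha₀, mem_Iic.2 le_rfl⟩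
    exact this
  set F := G' x₀ with hF
  set C₁ : Set (NonemptyCompacts X) := range G' with hC₁
  set C : ℕ → Set (NonemptyCompacts X) := fun n => range fun x => F ⊔ G n x with hC
  set C₂ : Set (NonemptyCompacts X) := insert (F ⊔ {p}) (⋃ n, C n) with hC₂
  have hsup : ∀ a b : NonemptyCompacts X, dist (F ⊔ a) (F ⊔ b) ≤ dist a b := by
    intro a b
    have := (NonemptyCompacts.lipschitz_sup (α := X)).dist_le_mul (F, a) (F, b)
    simpa [Prod.dist_eq] using this
  have hC₂c : IsCompact C₂ := by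
    refine isCompact_insert_iUnion (fun n => ?_) ?_
    · refine isCompact_range ?_
      have hsc : Continuous fun a : NonemptyCompacts X => F ⊔ a :=
        (LipschitzWith.of_dist_le_mul (K := 1) fun a b => by simpa using hsup a b).continuous
      exact hsc.comp (hGc n)
    · intro U hU
      obtain ⟨ε, hε, hεU⟩ := Metric.mem_nhds_iff.1 hU
      have h3 : Tendsto (fun n : ℕ => 3 * (1 / 2 : ℝ) ^ n) atTop (𝓝 (3 * 0)) :=
        (tendsto_pow_atTop_nhds_zero_of_lt_one (by norm_num) (by norm_num)).const_mul 3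
      rw [mul_zero] at h3
      filter_upwards [h3.eventually_lt_const hε] with n hn
      rintro _ ⟨x, rfl⟩
      refine hεU ?_
      rw [mem_ball]
      refine lt_of_le_of_lt ((hsup _ _).trans ?_) hn
      rw [NonemptyCompacts.dist_eq]
      refine hausdorffDist_le_of_mem_dist (by positivity) ?_ ?_
      · intro y hy
        exact ⟨p, by simp, hGp n x y hy⟩
      · intro y hy
        obtain ⟨z, hz⟩ := (G n x).nonempty
        have : y = p := by simpa using hy
        refine ⟨z, hz, ?_⟩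
        rw [this, dist_comm]
        exact hGp n x z hz
  refine ⟨C₁ ∪ C₂ ∪ C₃, ((isCompact_range hG'1).union hC₂c).union hC₃c, ?_⟩
  rw [image_union, image_union, hC₃i]
  have hi1 : (fun C : NonemptyCompacts X => dimH (C : Set X)) '' C₁ = A ∩ Iic a₀ := by
    rw [hC₁, ← range_comp]; exact hG'3
  rw [hi1]
  apply Subset.antisymm
  · rintro a ((ha | ha) | ha)
    · exact ha.1
    · obtain ⟨c, hc, rfl⟩ := ha
      rcases hc with rfl | hc
      · simp only [NonemptyCompacts.coe_sup, dimH_union, hx₀]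
        rw [NonemptyCompacts.coe_singleton, dimH_singleton, max_eq_left zero_le]
        exact ha₀
      · obtain ⟨n, x, rfl⟩ := mem_iUnion.1 hc
        simp only [NonemptyCompacts.coe_sup, dimH_union, hx₀]
        have h1 : dimH (G n x : Set X) ∈ A ∩ Iic (b n) := by
          rw [← hGr n]; exact mem_range_self x
        rcases le_total a₀ (dimH (G n x : Set X)) with h2 | h2
        · rw [max_eq_right h2]; exact h1.1
        · rw [max_eq_left h2]; exact ha₀
    · exact ha.1
  · intro a ha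
    rcases eq_or_lt_of_le (mem_Iic.1 (hAD ha)) with h1 | h1
    · exact Or.inr ⟨ha, h1⟩
    · rcases le_total a a₀ with h2 | h2
      · exact Or.inl (Or.inl ⟨ha, h2⟩)
      · refine Or.inl (Or.inr ?_)
        obtain ⟨n, hn⟩ := (hbD.eventually_const_lt h1).exists
        obtain ⟨x, hx⟩ : ∃ x, dimH (G n x : Set X) = a := by
          have : a ∈ range (fun x => dimH (G n x : Set X)) := by
            rw [hGr]; exact ⟨ha, hn.le⟩
          exact this
        refine ⟨F ⊔ G n x, Or.inr (mem_iUnion.2 ⟨n, x, rfl⟩), ?_⟩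
        simp only [NonemptyCompacts.coe_sup, dimH_union, hx₀, hx]
        exact max_eq_right h2

end Pool.Agent.MP_65ee2d_an
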